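import Pool.Agent.P.MP_b8021b_nt.CH.St
import Pool.Agent.P.MP_b8021b_nt.BS.CF.IF
import Pool.Agent.P.MP_b8021b_nt.BS.CF.PKP
import Pool.Agent.P.MP_b8021b_nt.BS.CF.PKum
import Pool.Agent.P.MP_b8021b_nt.BS.CF.PEx

/-! The norm theorem for an everywhere unramified quadratic extension. -/

namespace Pool.Agent.P.MP_b8021b_nt.CH

open NumberField Finset IsDedekindDomain Polynomial
open Pool.Agent.P.MP_b8021b_nt Pool.Agent.P.MP_b8021b_nt.VE Pool.Agent.P.MP_b8021b_nt.VC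
open Pool.Agent.P.MP_b8021b_nt.BS.CF
open Cy FractionalIdeal
open scoped Classical Pointwise nonZeroDivisors

set_option linter.unusedSectionVars false

theorem hSec : S_Sec := by
  have hRep := p_rep2 p_ray p_lamP
  have hVol := p_vol p_emb p_int
  have hPS := p_pSs p_emb p_unit hRep (p_part p_emb) hVol
    (p_pS0 p_emb hRep (p_part p_emb) (p_win2 hVol p_lat)) p_lamP
  exact p_sec (p_den p_emb hPS p_eP) p_kD p_bCN p_lamP

open HNP in
theorem hn0 (k : Type) [Field k] [NumberField k] [Algebra k ℂ] (B : BF k) (F K : Type) [Field F]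
    [NumberField F] [Algebra k F] [Field K] [NumberField K] [Algebra F K] [IsGalois F K]
    (n : ℕ) (α β : 𝓞 F) (A B' : Ideal (𝓞 K)) (he : (Module.finrank F K).Prime) (hn : 2 ≤ n)
    (hR : ∀ 𝔓 : Ideal (𝓞 K), 𝔓.IsMaximal → ¬ RamP F 𝔓) (a0 : (α : F) ≠ 0) (b0 : (β : F) ≠ 0)
    (hα : IsCoprime α n) (hβ : IsCoprime β n) (hA : A ≠ ⊥) (hB : B' ≠ ⊥)
    (h : Ideal.relNorm (𝓞 F) A * Ideal.span {α} = Ideal.relNorm (𝓞 F) B' * Ideal.span {β}) :
    ∃ δ : K, Algebra.norm F δ * α = β := by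
  have hNG := d_nG p_tame
  have hc := IsGalois.card_aut_eq_finrank F K
  have : Fact (Module.finrank F K).Prime := ⟨he⟩
  obtain ⟨σ, hσ⟩ := (isCyclic_of_prime_card hc).exists_generator
  have ho : orderOf σ = Module.finrank F K := (orderOf_eq_card_of_forall_mem_zpowers hσ).trans hc
  have hp : σ ^ Module.finrank F K = 1 := ho ▸ pow_orderOf_eq_one σ
  have hσ1 : σ ≠ 1 := fun e => he.one_lt.ne' (by rw [← ho, e, orderOf_one])
  obtain ⟨e0, e1, e2⟩ := d_h1 d_h1A k B F K σ he hσ1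
  have hne : ∀ {a : 𝓞 F}, (n : 𝓞 F) ∣ a - 1 → (a : F) ≠ 0 := fun h e =>
    Cop_ne_bot hn (cop_span_of_dvd h)
      (Ideal.span_singleton_eq_bot.2 (RingOfIntegers.coe_eq_zero_iff.1 e))
  have hN : ∀ (I : Ideal (𝓞 K)) (x : (FI K)ˣ), I ≠ ⊥ → x = HNP.ex K (Ideal.relNorm (𝓞 F) I) →
      nm (σD σ) (Module.finrank F K) (mkU I) = x := fun I x hI hx =>
    Units.ext ((coe_nmD hNG hσ (coe_mkU hI)).trans hx.symm)
  obtain ⟨δ, hδ⟩ := d_hA (𝓞 K)ˣ Kˣ (FI K)ˣ _ (uσ σ) (σA σ) (σD σ) (ιE K) (dv K)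
    ((U F n).map (ιF F K)) (J F K n) he.pos (uσ_iter hp) (σA_iter hp) (σD_iter hp) ιE_inj
    ιE_range (fun _ => rfl) (dv_σ σ) (h90 hσ) dv_index e0 e1 e2 (J_le hn σ) (UJ hσ).ge
    (by
      rw [UJ hσ, Subgroup.relIndex_self]
      simpa using amb hNG hσ he hn ∅ fun 𝔓 a b => absurd b (hR 𝔓 a))
    (inf_le_left.trans (UJ hσ).le)
    (sec hSec B hn _ (fun a x ha hx => Subgroup.mem_sup_left
        ⟨_, ⟨Units.mk0 _ (hne ha), ⟨a, 1, by
            obtain ⟨c, hc⟩ := ha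
            exact ⟨1, -c, by linear_combination hc⟩, isCoprime_one_left, by simp⟩, rfl⟩,
          Units.ext (by rw [hx, ex_span, coe_toPrincipalIdeal]; rfl)⟩)
      fun I x hI hx => Subgroup.mem_sup_right ⟨_, hN I x hI hx⟩)
    (ιF F K (Units.mk0 _ (div_ne_zero b0 a0)))
    ⟨_, ⟨β, α, hβ, hα, by rw [Units.val_mk0, div_mul_cancel₀ _ a0]⟩, rfl⟩
    ⟨mkU A / mkU B', by
      have h1 := congrArg (HNP.ex K) h
      rw [ex_mul, ex_mul, ex_span, ex_span] at h1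
      have ha : spanSingleton (𝓞 K)⁰ (algebraMap F K α) ≠ 0 :=
        spanSingleton_ne_zero_iff.2 ((_root_.map_ne_zero _).2 a0)
      rw [_root_.map_div, div_eq_iff_eq_mul']
      refine Units.ext (mul_right_cancel₀ ha ?_)
      rw [Units.val_mul, coe_nmD hNG hσ (coe_mkU hA), coe_nmD hNG hσ (coe_mkU hB), mul_assoc,
        coe_toPrincipalIdeal, spanSingleton_mul_spanSingleton, coe_ιF, ← map_mul, Units.val_mk0,
        div_mul_cancel₀ _ a0]
      exact h1⟩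
  refine ⟨δ, (algebraMap F K).injective ?_⟩
  rw [map_mul, ← coe_nmA hσ, hδ, coe_ιF, ← map_mul, Units.val_mk0, div_mul_cancel₀ _ a0]

theorem exists_bf {L : Type} [Field L] [NumberField L] (h : IQc L) :
    ∃ (k : Type) (_ : Field k) (_ : NumberField k) (_ : Algebra k ℂ) (_ : BF k),
      Nonempty (k →+* L) := by
  obtain ⟨D, hD, ω, hω⟩ := h
  obtain ⟨k, _, _, K₀, hK⟩ := p_iq D hD
  let _ : Algebra k ℂ := K₀.σ.toAlgebra
  let K : BF k := ⟨K₀, fun _ => rfl⟩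
  refine ⟨k, inferInstance, inferInstance, inferInstance, K, ?_⟩
  have h1 : ((K.ω : 𝓞 k) : k) ^ 2 = D := by
    have := congrArg (fun z : 𝓞 k => (z : k)) K₀.sq
    rw [hK] at this
    simpa using this
  have hi : IsIntegral ℚ ((K.ω : 𝓞 k) : k) := Algebra.IsIntegral.isIntegral _
  have h2 : (minpoly ℚ ((K.ω : 𝓞 k) : k)).natDegree = 2 := by
    have h3 := minpoly.natDegree_le (A := ℚ) ((K.ω : 𝓞 k) : k)
    have h4 : 2 ≤ (minpoly ℚ ((K.ω : 𝓞 k) : k)).natDegree :=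
      (minpoly.two_le_natDegree_iff hi).2 fun ⟨q, hq⟩ => by
        rw [← hq, ← map_pow] at h1
        have h5 : q ^ 2 = D := (algebraMap ℚ k).injective (by simpa using h1)
        have h6 : (D : ℚ) < 0 := by exact_mod_cast hD
        nlinarith [sq_nonneg q]
    rw [K.deg] at h3
    omega
  have h3 : minpoly ℚ ((K.ω : 𝓞 k) : k) = X ^ 2 + C (-(D : ℚ)) := by
    have hm : (X ^ 2 + C (-(D : ℚ)) : ℚ[X]).Monic := monic_X_pow_add_C _ two_ne_zero
    refine (eq_of_monic_of_dvd_of_natDegree_le (minpoly.monic hi) hm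
      (minpoly.dvd ℚ _ (by simp [h1])) ?_).symm
    rw [h2, natDegree_X_pow_add_C]
  have h4 : Algebra.adjoin ℚ {((K.ω : 𝓞 k) : k)} = ⊤ := by
    rw [← IntermediateField.adjoin_simple_toSubalgebra_of_isAlgebraic hi.isAlgebraic,
      (Field.primitive_element_iff_minpoly_natDegree_eq ℚ _).2 (h2.trans K.deg.symm),
      IntermediateField.top_toSubalgebra]
  let pb := PowerBasis.ofAdjoinEqTop hi h4
  refine ⟨(pb.lift ω ?_ : k →ₐ[ℚ] L)⟩
  rw [PowerBasis.ofAdjoinEqTop_gen, h3]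
  simp [hω]

theorem kum (L : Type) [Field L] [NumberField L] (b : L) (hb : ¬ ∃ z : L, b = z ^ 2) :
    ∃ (M : Type) (_ : Field M) (_ : NumberField M) (_ : Algebra L M) (_ : IsGalois L M) (β : M),
      Kum 2 b β ∧ ∀ c : L, NV 2 b c ↔ ∃ δ : M, Algebra.norm L δ = c := by
  have hirr : Irreducible (X ^ 2 - C b : L[X]) :=
    X_pow_sub_C_irreducible_of_prime Nat.prime_two fun z hz => hb ⟨z, hz.symm⟩
  have : Fact (Irreducible (X ^ 2 - C b : L[X])) := ⟨hirr⟩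
  have hζ : (primitiveRoots 2 L).Nonempty :=
    ⟨-1, (mem_primitiveRoots two_pos).2 (IsPrimitiveRoot.neg_one 0 (by norm_num))⟩
  have := isSplittingField_AdjoinRoot_X_pow_sub_C hζ hirr
  have hG : IsGalois L (AdjoinRoot (X ^ 2 - C b : L[X])) :=
    isGalois_of_isSplittingField_X_pow_sub_C hζ hirr _
  let pb := AdjoinRoot.powerBasis hirr.ne_zero
  have hdim : pb.dim = 2 := by
    simp only [pb, AdjoinRoot.powerBasis_dim, natDegree_X_pow_sub_C]
  have : Module.Finite L (AdjoinRoot (X ^ 2 - C b : L[X])) := pb.finite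
  have hNF : NumberField (AdjoinRoot (X ^ 2 - C b : L[X])) :=
    NumberField.of_module_finite L _
  have hβ : pb.gen ^ 2 = algebraMap L _ b := by
    have := AdjoinRoot.eval₂_root (X ^ 2 - C b : L[X])
    rw [eval₂_sub, eval₂_X_pow, eval₂_C, sub_eq_zero] at this
    simpa [pb, AdjoinRoot.algebraMap_eq] using this
  refine ⟨AdjoinRoot (X ^ 2 - C b : L[X]), inferInstance, hNF, inferInstance, hG, pb.gen,
    ⟨by rw [pb.finrank, hdim], hβ, hb⟩, fun c => ?_⟩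
  refine KumP.nv_iff (Or.inl rfl) (pb.basis.reindex (finCongr hdim)) (fun i => ?_) hβ c
  rw [Module.Basis.reindex_apply, pb.basis_eq_pow]
  simp

section

variable {F M : Type} [Field F] [NumberField F] [Field M] [NumberField M] [Algebra F M]

theorem nrm_map (h2 : Module.finrank F M = 2) (I : Ideal (𝓞 F)) :
    Ideal.relNorm (𝓞 F) (I.map (algebraMap (𝓞 F) (𝓞 M))) = I ^ 2 := by
  rw [Ideal.relNorm_algebraMap, ← IsFractionRing.finrank_eq (𝓞 F) F (𝓞 M) M, h2]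

theorem is_norm (h2 : Module.finrank F M = 2) (N : ℕ) : ∀ I : Ideal (𝓞 F), I ≠ ⊥ →
    Ideal.absNorm I = N → (∀ v : Pl F, 2 ∣ cnt v I ∨
      ∃ w : Pl M, Ideal.relNorm (𝓞 F) w.asIdeal = v.asIdeal) →
    ∃ C : Ideal (𝓞 M), Ideal.relNorm (𝓞 F) C = I := by
  induction N using Nat.strong_induction_on with
  | _ N ih =>
    intro I hI hN h
    by_cases ht : I = ⊤
    · exact ⟨1, by rw [map_one, ht, Ideal.one_eq_top]⟩
    obtain ⟨P, hP, hle⟩ := Ideal.exists_le_maximal I ht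
    have hP0 : P ≠ ⊥ := fun e => hI (le_bot_iff.1 (e ▸ hle))
    let v : Pl F := ⟨P, hP.isPrime, hP0⟩
    obtain ⟨J, hJ, hnd⟩ := (FiniteMultiplicity.of_prime_left v.prime hI).exists_eq_pow_mul_and_not_dvd
    have hk : cnt v I ≠ 0 := fun e => (cnt_eq_zero v).1 e hle
    change I = v.asIdeal ^ cnt v I * J at hJ
    have hJ0 : J ≠ ⊥ := fun e => hI (by rw [hJ, e, Ideal.mul_bot])
    have hv1 : 1 < Ideal.absNorm v.asIdeal ^ cnt v I := by
      refine Nat.one_lt_pow hk ?_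
      have a1 : Ideal.absNorm v.asIdeal ≠ 0 := fun e => hP0 (Ideal.absNorm_eq_zero_iff.1 e)
      have a2 : Ideal.absNorm v.asIdeal ≠ 1 := fun e => hP.ne_top (Ideal.absNorm_eq_one_iff.1 e)
      omega
    have hlt : Ideal.absNorm J < N := by
      have a1 : Ideal.absNorm J ≠ 0 := fun e => hJ0 (Ideal.absNorm_eq_zero_iff.1 e)
      have a2 := congrArg Ideal.absNorm hJ
      rw [map_mul, map_pow, hN] at a2
      rw [a2]
      exact lt_mul_of_one_lt_left (Nat.pos_of_ne_zero a1) hv1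
    obtain ⟨C, hC⟩ := ih _ hlt J hJ0 rfl fun u => by
      by_cases e : u = v
      · left
        rw [e, (cnt_eq_zero v).2 fun hh => hnd (Ideal.dvd_iff_le.2 hh)]
        exact dvd_zero 2
      · refine (h u).imp_left fun a => ?_
        rwa [hJ, cnt_mul u (pow_ne_zero _ v.ne_bot) hJ0, cnt_pow u v.ne_bot, cnt_ne u e, mul_zero,
          zero_add] at a
    rcases h v with ⟨k, hk⟩ | ⟨w, hw⟩
    · refine ⟨v.asIdeal.map (algebraMap (𝓞 F) (𝓞 M)) ^ k * C, ?_⟩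
      rw [map_mul, map_pow, nrm_map h2, hC, ← pow_mul, ← hk, ← hJ]
    · refine ⟨w.asIdeal ^ cnt v I * C, ?_⟩
      rw [map_mul, map_pow, hw, hC, ← hJ]

theorem ok_int {v : Pl F} {θ d : F} (h : OK (vl v) θ d) : ∃ (z : F) (J C : 𝓞 F),
    d * z ^ 2 = ((J ^ 2 - 4 * C : 𝓞 F) : F) ∧ J ^ 2 - 4 * C ∉ v.asIdeal ∧
      ((∃ y, vl v (θ * y ^ 2) = 1) ∨ ∃ a : 𝓞 F, a ^ 2 - J * a + C ∈ v.asIdeal) := by
  obtain ⟨z, j, c, hj, hc, e, hu, h⟩ := h
  obtain ⟨r, hr, h'⟩ : ∃ r, vl v r ≤ 1 ∧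
      ((∃ y, vl v (θ * y ^ 2) = 1) ∨ vl v (r ^ 2 - j * r + c) < 1) := by
    rcases h with h | ⟨r, a, b⟩
    exacts [⟨0, by simp, Or.inl h⟩, ⟨r, a, Or.inr b⟩]
  obtain ⟨n1, d1, a1, e1⟩ := KPP.frac v hj
  obtain ⟨n2, d2, a2, e2⟩ := KPP.frac v hc
  obtain ⟨n3, d3, a3, e3⟩ := KPP.frac v hr
  have hD : vl v (((d1 : F) * d2 * d3) ^ 2) = 1 := by
    rw [map_pow, map_mul, map_mul, (vl_coe_eq v _).2 a1, (vl_coe_eq v _).2 a2,
      (vl_coe_eq v _).2 a3]
    simp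
  have e4 : (((n1 * d2 * d3) ^ 2 - 4 * (n2 * d2 * (d1 * d3) ^ 2) : 𝓞 F) : F) =
      (j ^ 2 - 4 * c) * ((d1 : F) * d2 * d3) ^ 2 := by
    change algebraMap (𝓞 F) F _ = _
    simp only [map_sub, map_mul, map_pow, map_ofNat]
    change (n1 * d2 * d3 : F) ^ 2 - 4 * (n2 * d2 * (d1 * d3) ^ 2) = _
    rw [← e1, ← e2]; ring
  refine ⟨z * (d1 * d2 * d3), n1 * d2 * d3, n2 * d2 * (d1 * d3) ^ 2, ?_, (vl_coe_eq v _).1 ?_,
    h'.imp_right fun h => ⟨n3 * d1 * d2, (vl_coe_lt v _).1 ?_⟩⟩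
  · rw [e4, ← e]; ring
  · rw [e4, map_mul, hu, hD, one_mul]
  · have e5 : (((n3 * d1 * d2) ^ 2 - n1 * d2 * d3 * (n3 * d1 * d2) + n2 * d2 * (d1 * d3) ^ 2 :
        𝓞 F) : F) = (r ^ 2 - j * r + c) * ((d1 : F) * d2 * d3) ^ 2 := by
      change algebraMap (𝓞 F) F _ = _
      simp only [map_sub, map_add, map_mul, map_pow]
      change (n3 * d1 * d2 : F) ^ 2 - n1 * d2 * d3 * (n3 * d1 * d2) + n2 * d2 * (d1 * d3) ^ 2 = _
      rw [← e1, ← e2, ← e3]; ring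
    rwa [e5, map_mul, hD, mul_one]

theorem theta [IsGalois F M] {d z : F} {β : M} (hK : Kum 2 d β) {v : Pl F} {J C : 𝓞 F}
    (e : d * z ^ 2 = ((J ^ 2 - 4 * C : 𝓞 F) : F)) (hu : J ^ 2 - 4 * C ∉ v.asIdeal) :
    ∃ Θ : 𝓞 M, Θ ^ 2 - algebraMap _ _ J * Θ + algebraMap _ _ C = 0 ∧
      ∀ (𝔓 : Ideal (𝓞 M)) (σ : M ≃ₐ[F] M) (a : 𝓞 F), Und v 𝔓 → σ ≠ 1 → (∀ x ∈ 𝔓, σ • x ∈ 𝔓) →
        Θ - algebraMap _ _ a ∉ 𝔓 := by
  have hβ := hK.pow
  have e' : algebraMap F M d * algebraMap F M z ^ 2 =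
      algebraMap F M J ^ 2 - 4 * algebraMap F M C := by
    have := congrArg (algebraMap F M) e
    change _ = algebraMap F M (algebraMap (𝓞 F) F _) at this
    simpa only [map_sub, map_mul, map_pow, map_ofNat] using this
  have e1 : ((algebraMap F M J + algebraMap F M z * β) / 2) ^ 2 -
      algebraMap F M J * ((algebraMap F M J + algebraMap F M z * β) / 2) +
      algebraMap F M C = 0 := by
    linear_combination (1 / 4 : M) * e' + algebraMap F M z ^ 2 / 4 * hβ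
  have hi : IsIntegral (𝓞 F) ((algebraMap F M J + algebraMap F M z * β) / 2) := by
    refine ⟨X ^ 2 - (Polynomial.C J * X + Polynomial.C (-C)),
      monic_X_pow_sub ((degree_linear_le).trans_lt (by norm_num)), ?_⟩
    simp only [eval₂_sub, eval₂_add, eval₂_mul, eval₂_pow, eval₂_X, eval₂_C, map_neg, eval₂_neg]
    rw [IsScalarTower.algebraMap_apply (𝓞 F) F M, IsScalarTower.algebraMap_apply (𝓞 F) F M]
    linear_combination e1
  let Θ : 𝓞 M := ⟨_, isIntegral_trans (R := ℤ) _ hi⟩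
  have e2 : Θ ^ 2 - algebraMap _ _ J * Θ + algebraMap _ _ C = 0 := RingOfIntegers.ext (by
    change algebraMap (𝓞 M) M _ = algebraMap (𝓞 M) M _
    simp only [map_sub, map_add, map_mul, map_pow, map_zero]
    exact e1)
  refine ⟨Θ, e2, fun 𝔓 σ a hU hσ hs ha => hu ((KPP.mem_iff hU _).1 ?_)⟩
  have h5 : σ β = -β := by
    have h6 : σ β ^ 2 = β ^ 2 := by rw [← map_pow, hβ, σ.commutes]
    exact (sq_eq_sq_iff_eq_or_eq_neg.1 h6).resolve_left (KPP.moves (Or.inl rfl) hK hσ)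
  have hΘ : σ • Θ = algebraMap (𝓞 F) (𝓞 M) J - Θ := RingOfIntegers.ext (by
    rw [KPP.coe_smul]
    change σ ((algebraMap F M J + algebraMap F M z * β) / 2) =
      algebraMap F M J - (algebraMap F M J + algebraMap F M z * β) / 2
    rw [map_div₀, map_add, map_mul, σ.commutes, σ.commutes, h5, map_ofNat]
    ring)
  have h3 := hs _ ha
  rw [smul_sub, KPP.smul_alg, hΘ] at h3
  have h7 := 𝔓.pow_mem_of_mem (sub_mem h3 ha) 2 two_pos
  convert h7 using 1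
  simp only [map_sub, map_mul, map_pow, map_ofNat]
  linear_combination (-4) * e2

end

theorem hn : S_HN := by
  intro F _ _ θ d hF θ0 hw
  by_cases hsq : ∃ z : F, d = z ^ 2
  · obtain ⟨z, hz⟩ := hsq
    obtain ⟨v, -⟩ := exists_dv F le_rfl
    obtain ⟨y, j, c, -, -, e, hu, -⟩ := hw v
    obtain ⟨r, s, t, h⟩ := NV.split (ℓ := 2) (Or.inl rfl) (β := z) (fun e' => by
      rw [← e, hz, e'] at hu
      simp at hu) θ
    exact ⟨r, s, by rw [h, Nf_two, hz]⟩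
  obtain ⟨k, _, _, _, B, ⟨f⟩⟩ := exists_bf hF
  let _ : Algebra k F := f.toAlgebra
  obtain ⟨M, _, _, _, _, β, hK, hN⟩ := kum F d hsq
  obtain ⟨x1, x2, x3, -, -⟩ := p_ex F M
  have h2 : (Module.finrank F M).Prime := hK.fin ▸ Nat.prime_two
  obtain ⟨α₀, β₀, hβ, e⟩ := IsFractionRing.div_surjective (𝓞 F) θ
  have hβ1 : β₀ ≠ 0 := nonZeroDivisors.ne_zero hβ
  have hβ0 : (β₀ : F) ≠ 0 := fun e => hβ1 (RingOfIntegers.coe_eq_zero_iff.1 e)
  have e' : θ * β₀ = α₀ := by rw [← e]; exact div_mul_cancel₀ _ hβ0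
  have hα0 : (α₀ : F) ≠ 0 := e' ▸ mul_ne_zero θ0 hβ0
  have hα1 : α₀ ≠ 0 := fun e => hα0 (by simp [e])
  have hI : Ideal.span {α₀ * β₀} ≠ ⊥ := by simpa using ⟨hα1, hβ1⟩
  obtain ⟨C, hC⟩ := is_norm hK.fin _ (Ideal.span {α₀ * β₀}) hI rfl fun v => by
    obtain ⟨z, J, c, e1, hu, ⟨y, hy⟩ | ⟨a, ha⟩⟩ := ok_int (hw v)
    · left
      have y0 : y ≠ 0 := fun e => by simp [e] at hy
      have a := od_eq_zero_of_vl v hy
      rw [od_mul v θ0 (pow_ne_zero _ y0), od_pow] at a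
      have e1 := od_coe v (mul_ne_zero hα1 hβ1)
      have e2 : ((α₀ * β₀ : 𝓞 F) : F) = θ * β₀ ^ 2 := by
        calc ((α₀ * β₀ : 𝓞 F) : F) = (α₀ : F) * β₀ := map_mul (algebraMap (𝓞 F) F) _ _
          _ = _ := by rw [← e']; ring
      rw [e2, od_mul v θ0 (pow_ne_zero _ hβ0), od_pow] at e1
      push_cast at a e1
      omega
    · right
      obtain ⟨Θ, t1, t2⟩ := theta hK e1 hu
      obtain ⟨w, hU⟩ := x2 v
      obtain ⟨a', ha'⟩ : ∃ a' : 𝓞 F, Θ - algebraMap _ _ a' ∈ w.asIdeal := by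
        have h3 : (Θ - algebraMap _ _ a) * (Θ - algebraMap _ _ (J - a)) ∈ w.asIdeal := by
          have := neg_mem ((KPP.mem_iff hU _).2 ha)
          convert this using 1
          simp only [map_sub, map_add, map_mul, map_pow]
          linear_combination t1
        exact (w.isPrime.mem_or_mem h3).elim (fun h => ⟨_, h⟩) fun h => ⟨_, h⟩
      have hst : MulAction.stabilizer (M ≃ₐ[F] M) w.asIdeal = ⊥ := by
        refine (Subgroup.eq_bot_iff_forall _).2 fun σ hσ => by_contra fun hn => ?_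
        refine t2 _ σ a' hU hn (fun x hx => ?_) ha'
        have e1 : σ • w.asIdeal = w.asIdeal := hσ
        rw [← e1]
        exact Ideal.smul_mem_pointwise_smul _ _ _ hx
      obtain ⟨c, c1, -, c3⟩ := KPP.fund hU
      rw [hst, Subgroup.card_bot] at c1
      rw [Nat.eq_one_of_mul_eq_one_left c1.symm, pow_one] at c3
      exact ⟨w, c3⟩
  have hC0 : C ≠ ⊥ := fun e => hI (by rw [← hC, e, Ideal.relNorm_eq_bot_iff])
  have hB := nrm_map hK.fin (Ideal.span {β₀})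
  have hB0 : (Ideal.span {β₀}).map (algebraMap (𝓞 F) (𝓞 M)) ≠ ⊥ := fun e => by
    rw [e, Ideal.relNorm_eq_bot_iff.2 rfl] at hB
    exact pow_ne_zero 2 (by simpa using hβ1) hB.symm
  obtain ⟨u, hu⟩ := Ideal.mem_span_singleton'.1 (Ideal.absNorm_mem (Ideal.span {α₀ * β₀}))
  have hc : IsCoprime (α₀ * β₀) ((Ideal.absNorm (Ideal.span {α₀ * β₀}) + 1 : ℕ) : 𝓞 F) :=
    ⟨-u, 1, by rw [Nat.cast_succ, ← hu]; ring⟩
  obtain ⟨δ, hδ⟩ := hn0 k B F M _ β₀ α₀ C _ h2 (by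
      have : Ideal.absNorm (Ideal.span {α₀ * β₀}) ≠ 0 := fun e =>
        hI (Ideal.absNorm_eq_zero_iff.1 e)
      omega)
    (fun 𝔓 hm hr => by
      have hP0 : 𝔓 ≠ ⊥ := Ring.ne_bot_of_isMaximal_of_not_isField hm (RingOfIntegers.not_isField M)
      obtain ⟨v, -, -, hU, -⟩ := x1 ⟨𝔓, hm.isPrime, hP0⟩
      have hN : 1 < Ideal.absNorm v.asIdeal := by
        have h0 : Ideal.absNorm v.asIdeal ≠ 0 := fun e => v.ne_bot (Ideal.absNorm_eq_zero_iff.1 e)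
        have h1 : Ideal.absNorm v.asIdeal ≠ 1 := fun e =>
          v.isPrime.ne_top (Ideal.absNorm_eq_one_iff.1 e)
        omega
      obtain ⟨-, t2, t3, -⟩ := p_tame F M 𝔓 h2 hm hr
      obtain ⟨f, -, -, f2, f3⟩ := x3 v ⟨𝔓, hm.isPrime, hP0⟩ hU
      have hf : f = 1 := Nat.pow_right_injective hN (by
        change _ ^ f = _ ^ 1
        rw [← f2, pow_one, hU]
        exact t3)
      obtain ⟨σ, hσ⟩ := KPP.exists_ne (Or.inl rfl) hK
      obtain ⟨z, J, c, e1, hu, -⟩ := ok_int (hw v)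
      obtain ⟨Θ, -, t4⟩ := theta hK e1 hu
      obtain ⟨a, ha⟩ := f3 hf Θ
      refine t4 𝔓 σ a hU hσ (fun x hx => ?_) ha
      rw [← t2 σ]
      exact Ideal.mem_map_of_mem _ hx)
    hβ0 hα0 hc.of_mul_left_right hc.of_mul_left_left hC0 hB0 (by
      rw [hC, hB, Ideal.span_singleton_pow, Ideal.span_singleton_mul_span_singleton,
        Ideal.span_singleton_mul_span_singleton]
      congr 2
      ring)
  obtain ⟨r, s, t, h⟩ := (hN θ).2 ⟨δ, mul_right_cancel₀ hβ0 (hδ.trans e'.symm)⟩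
  exact ⟨r, s, by rw [h, Nf_two]⟩

end Pool.Agent.P.MP_b8021b_nt.CH
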