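import Mathlib

/-! Reduction theory of anisotropic lattices over a ring with a degree function. -/

namespace Pool.Agent.P.MP_b8021b_nt.CH

open WithZero
open scoped WithZero

set_option linter.unusedSectionVars false

variable {K V : Type} [Field K] [AddCommGroup V] [Module K V] [FiniteDimensional K V]

/-- a subring with a Euclidean degree, and an anisotropic symmetric form -/
structure Eu (v : Valuation K ℤᵐ⁰) (R : Subring K) (B : V →ₗ[K] V →ₗ[K] K) : Prop where
  one_le : ∀ a ∈ R, a ≠ 0 → 1 ≤ v a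
  div : ∀ x : K, ∃ a ∈ R, v (x - a) < 1
  inv : ∀ a ∈ R, v a ≤ 1 → a⁻¹ ∈ R
  symm : ∀ x y, B x y = B y x
  an : ∀ x, B x x = 0 → x = 0

variable {v : Valuation K ℤᵐ⁰} {R : Subring K} {B : V →ₗ[K] V →ₗ[K] K}

theorem fr_lt (h : Eu v R B) {W : Submodule K V} {x : V} (hx : x ∈ W) (h0 : x ≠ 0) :
    Module.finrank K (W ⊓ LinearMap.ker (B x) : Submodule K V) < Module.finrank K W :=
  Submodule.finrank_lt_finrank_of_lt (lt_of_le_of_ne inf_le_left fun e => by
    rw [← e] at hx
    exact h0 (h.an x hx.2))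

/-- the projection along `x` -/
def pr (B : V →ₗ[K] V →ₗ[K] K) (x : V) : V →ₗ[K] V :=
  LinearMap.id - ((B x x)⁻¹ • B x).smulRight x

theorem pr_apply (x y : V) : pr B x y = y - ((B x x)⁻¹ * B x y) • x := by
  simp [pr]

theorem pr_orth (h : Eu v R B) {x : V} (h0 : x ≠ 0) (y : V) : B x (pr B x y) = 0 := by
  have : B x x ≠ 0 := fun e => h0 (h.an x e)
  rw [pr_apply, map_sub, map_smul, smul_eq_mul]
  field_simp
  ring

theorem pyth (h : Eu v R B) {x y : V} (e : B x y = 0) (a : K) :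
    B (y + a • x) (y + a • x) = B y y + a ^ 2 * B x x := by
  simp only [map_add, map_smul, LinearMap.add_apply, LinearMap.smul_apply, smul_eq_mul, e,
    h.symm y x]
  ring

theorem herm (h : Eu v R B) (n : ℕ) : ∀ (W : Submodule K V) (M : Submodule R V) (m : ℤ),
    Module.finrank K W ≤ n → (∀ x ∈ M, x ∈ W) → (∃ x ∈ M, x ≠ 0) →
    (∀ x ∈ M, x ≠ 0 → exp m ≤ v (B x x)) →
    ∃ y ∈ W, y ≠ 0 ∧ (∀ x ∈ M, B y x ∈ R) ∧ v (B y y) ≤ exp (-m) := by
  induction n with
  | zero =>
    rintro W M m hW hM ⟨x, hx, h0⟩ -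
    exact absurd (fr_lt h (hM x hx) h0) (by omega)
  | succ n ih =>
    rintro W M m hW hM ⟨x₁, hx₁, h₁⟩ hm
    have hv : ∀ x : V, x ≠ 0 → v (B x x) ≠ 0 := fun x hx e =>
      hx (h.an x ((Valuation.zero_iff v).1 e))
    obtain ⟨m₀, ⟨x, hx, h0, e0⟩, hmin⟩ := Int.exists_least_of_bdd
      (P := fun z => ∃ x ∈ M, x ≠ 0 ∧ v (B x x) = exp z)
      ⟨m, fun z ⟨x, hx, h0, e⟩ => exp_le_exp.1 (e ▸ hm x hx h0)⟩
      ⟨log (v (B x₁ x₁)), x₁, hx₁, h₁, (exp_log (hv _ h₁)).symm⟩
    have hmin' : ∀ y ∈ M, y ≠ 0 → exp m₀ ≤ v (B y y) := fun y hy hy0 => by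
      rw [← exp_log (hv _ hy0)]
      exact exp_le_exp.2 (hmin _ ⟨y, hy, hy0, (exp_log (hv _ hy0)).symm⟩)
    have hmm : m ≤ m₀ := exp_le_exp.1 (e0 ▸ hm x hx h0)
    have hxx : B x x ≠ 0 := fun e => h0 (h.an x e)
    have key : ∀ y ∈ M, ∃ a ∈ R, ∃ b : K, v (b ^ 2 * B x x) < exp m₀ ∧
        pr B x y + b • x ∈ M ∧ y = pr B x y + b • x + a • x := fun y hy => by
      obtain ⟨a, ha, hlt⟩ := h.div ((B x x)⁻¹ * B x y)
      have e1 : y = pr B x y + ((B x x)⁻¹ * B x y - a) • x + a • x := by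
        rw [pr_apply, sub_smul]; abel
      refine ⟨a, ha, _, ?_, ?_, e1⟩
      · rw [map_mul, map_pow, e0]
        exact mul_lt_of_lt_one_left exp_pos (pow_lt_one₀ zero_le hlt two_ne_zero)
      · have := M.sub_mem hy (M.smul_mem ⟨a, ha⟩ hx)
        rw [eq_sub_of_add_eq e1.symm]
        exact this
    by_cases hp : ∃ y ∈ M, pr B x y ≠ 0
    · obtain ⟨y, hy, y0, hR, hle⟩ := ih (W ⊓ LinearMap.ker (B x))
        (M.map ((pr B x).restrictScalars R)) m₀ (by have := fr_lt h (hM x hx) h0; omega)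
        (by
          rintro _ ⟨z, hz, rfl⟩
          refine ⟨?_, pr_orth h h0 z⟩
          change pr B x z ∈ W
          rw [pr_apply]
          exact W.sub_mem (hM z hz) (W.smul_mem _ (hM x hx)))
        (by obtain ⟨y, hy, y0⟩ := hp; exact ⟨_, ⟨y, hy, rfl⟩, y0⟩)
        (by
          rintro _ ⟨z, hz, rfl⟩ z0
          change pr B x z ≠ 0 at z0
          change _ ≤ v (B (pr B x z) (pr B x z))
          obtain ⟨a, -, b, hb, hmem, -⟩ := key z hz
          have h2 := hmin' _ hmem fun e => z0 (by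
            have h3 := pyth h (pr_orth h h0 z) b
            have h4 := congrArg (B x) e
            rw [map_add, pr_orth h h0, map_smul, smul_eq_mul, zero_add, map_zero] at h4
            rwa [(mul_eq_zero.1 h4).resolve_right hxx, zero_smul, add_zero] at e)
          rw [pyth h (pr_orth h h0 z)] at h2
          exact (le_max_iff.1 (h2.trans (v.map_add _ _))).resolve_right hb.not_ge)
      refine ⟨y, hy.1, y0, fun z hz => ?_, hle.trans (exp_le_exp.2 (by omega))⟩
      have h2 := hR _ ⟨z, hz, rfl⟩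
      change B y (pr B x z) ∈ R at h2
      have h3 : B y x = 0 := (h.symm y x).trans hy.2
      rwa [pr_apply, map_sub, map_smul, h3, smul_zero, sub_zero] at h2
    · push Not at hp
      refine ⟨(B x x)⁻¹ • x, W.smul_mem _ (hM x hx), smul_ne_zero (inv_ne_zero hxx) h0,
        fun z hz => ?_, ?_⟩
      · obtain ⟨a, ha, b, hb, hmem, e⟩ := key z hz
        rw [hp z hz, zero_add] at hmem e
        have h2 : b • x = 0 := by_contra fun h3 => by
          have h4 := hmin' _ hmem h3
          simp only [map_smul, LinearMap.smul_apply, smul_eq_mul] at h4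
          rw [← mul_assoc, ← sq] at h4
          exact hb.not_ge h4
        rw [e, h2, zero_add]
        simp only [map_smul, LinearMap.smul_apply, smul_eq_mul]
        rwa [inv_mul_cancel₀ hxx, mul_one]
      · simp only [map_smul, LinearMap.smul_apply, smul_eq_mul]
        rw [inv_mul_cancel₀ hxx, mul_one, map_inv₀, e0, ← exp_neg]
        exact exp_le_exp.2 (by omega)

theorem even_aux (h : Eu v R B) (n : ℕ) : ∀ (W : Submodule K V) (M : Submodule R V),
    Module.finrank K W ≤ n → (∀ x, x ∈ M ↔ x ∈ W ∧ ∀ z ∈ M, B x z ∈ R) →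
    ∀ x ∈ W, x ≠ 0 → ∃ g : K, ∃ w ∈ W, w ≠ 0 ∧ B w w ∈ R ∧ v (B w w) ≤ 1 ∧
      v (B x x - B w w * g ^ 2) < v g ^ 2 := by
  induction n with
  | zero =>
    intro W M hW _ x hx h0
    exact absurd (fr_lt h hx h0) (by omega)
  | succ n ih =>
    intro W M hW hM x hx h0
    obtain ⟨y, hy, y0, hR, hle⟩ := herm h _ W M 0 hW (fun z hz => ((hM z).1 hz).1)
      (by
        by_contra hc
        push Not at hc
        exact h0 (hc x ((hM x).2 ⟨hx, fun z hz => by rw [hc z hz, map_zero]; exact R.zero_mem⟩)))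
      fun z hz z0 => h.one_le _ (((hM z).1 hz).2 z hz) fun e => z0 (h.an z e)
    have hyM : y ∈ M := (hM y).2 ⟨hy, hR⟩
    have hyy : B y y ≠ 0 := fun e => y0 (h.an y e)
    have hyR := hR y hyM
    rw [neg_zero, exp_zero] at hle
    have hW' : ∀ z ∈ W, pr B y z ∈ W ⊓ LinearMap.ker (B y) := fun z hz =>
      ⟨by rw [pr_apply]; exact W.sub_mem hz (W.smul_mem _ hy), pr_orth h y0 z⟩
    have ih' := ih (W ⊓ LinearMap.ker (B y))
      (M ⊓ (LinearMap.ker (B y)).restrictScalars R) (by have := fr_lt h hy y0; omega)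
      fun z => ⟨fun hz => ⟨⟨((hM z).1 hz.1).1, hz.2⟩, fun u hu => ((hM z).1 hz.1).2 u hu.1⟩,
        fun hz => ⟨(hM z).2 ⟨hz.1.1, fun u hu => by
          have h2 := hz.2 (pr B y u) ⟨by
            rw [pr_apply]
            exact M.sub_mem hu (M.smul_mem ⟨_, R.mul_mem (h.inv _ hyR hle) (hR u hu)⟩ hyM),
            pr_orth h y0 u⟩
          have h3 : B z y = 0 := (h.symm z y).trans hz.1.2
          rwa [pr_apply, map_sub, map_smul, h3, smul_zero, sub_zero] at h2⟩, hz.1.2⟩⟩
    obtain ⟨a, ha⟩ : ∃ a : K, x = pr B y x + a • y := ⟨_, by rw [pr_apply, sub_add_cancel]⟩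
    have e1 := pyth h (pr_orth h y0 x) a
    rw [← ha] at e1
    by_cases hp : pr B y x = 0
    · have a0 : a ≠ 0 := fun e => h0 (by rw [ha, hp, e, zero_smul, add_zero])
      refine ⟨a, y, hy, y0, hyR, hle, ?_⟩
      rw [e1, hp, map_zero, zero_add, mul_comm, sub_self, map_zero]
      exact pow_pos (zero_lt_iff.2 ((Valuation.ne_zero_iff v).2 a0)) 2
    obtain ⟨g, w, hw, w0, hwR, hw1, hlt⟩ := ih' _ (hW' x hx) hp
    have hg : v g ≠ 0 := fun e => by simp [e] at hlt
    have hg' : g ≠ 0 := (Valuation.ne_zero_iff v).1 hg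
    rcases le_or_gt (v a) (v g) with hc | hc
    · obtain ⟨l, hl, hl'⟩ := h.div (a / g)
      have h1 : v (a / g) ≤ 1 := by rw [map_div₀]; exact div_le_one_of_le₀ hc zero_le
      have h2 : v l ≤ 1 := by
        rw [show l = a / g - (a / g - l) by ring]
        exact (v.map_sub _ _).trans (max_le h1 hl'.le)
      have e2 := pyth h (show B y w = 0 from hw.2) l
      refine ⟨g, w + l • y, W.add_mem hw.1 (W.smul_mem _ hy), fun e => ?_, ?_, ?_, ?_⟩
      · have h4 := congrArg (B w) e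
        rw [map_add, map_smul, (h.symm w y).trans hw.2, smul_zero, add_zero, map_zero] at h4
        exact w0 (h.an w h4)
      · rw [e2]
        exact R.add_mem hwR (R.mul_mem (R.pow_mem hl 2) hyR)
      · rw [e2]
        refine (v.map_add _ _).trans (max_le hw1 ?_)
        rw [map_mul, map_pow]
        exact mul_le_one' (pow_le_one' h2 2) hle
      · have e3 : B x x - B (w + l • y) (w + l • y) * g ^ 2 =
            (B (pr B y x) (pr B y x) - B w w * g ^ 2) +
              (a / g - l) * ((a / g + l) * B y y) * g ^ 2 := by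
          rw [e1, e2]; field_simp; ring
        rw [e3]
        refine (v.map_add _ _).trans_lt (max_lt hlt ?_)
        rw [map_mul, map_pow, map_mul, map_mul]
        refine mul_lt_of_lt_one_left (pow_pos (zero_lt_iff.2 hg) 2) ?_
        exact (mul_le_of_le_one_right' (mul_le_one'
          ((v.map_add _ _).trans (max_le h1 h2)) hle)).trans_lt hl'
    · refine ⟨a, y, hy, y0, hyR, hle, ?_⟩
      rw [e1, mul_comm (B y y), add_sub_cancel_right,
        ← sub_add_cancel (B (pr B y x) (pr B y x)) (B w w * g ^ 2)]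
      have h3 : v g ^ 2 < v a ^ 2 := pow_lt_pow_left₀ hc zero_le two_ne_zero
      refine (v.map_add _ _).trans_lt (max_lt (hlt.trans h3) (lt_of_le_of_lt ?_ h3))
      rw [map_mul, map_pow]
      exact mul_le_of_le_one_left' hw1

/-- the values of an anisotropic form with a self dual lattice have even degree -/
theorem even_deg (h : Eu v R B) (M : Submodule R V) (hM : ∀ x, x ∈ M ↔ ∀ z ∈ M, B x z ∈ R)
    {x : V} (h0 : x ≠ 0) : ∃ g : K, v (B x x) = v g ^ 2 := by
  obtain ⟨g, w, -, w0, hwR, hw1, hlt⟩ := even_aux h _ ⊤ M le_rfl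
    (fun x => by simpa using hM x) x trivial h0
  have h1 : v (B w w * g ^ 2) = v g ^ 2 := by
    rw [map_mul, map_pow, le_antisymm hw1 (h.one_le _ hwR fun e => w0 (h.an w e)), one_mul]
  refine ⟨g, ?_⟩
  rw [← h1] at hlt ⊢
  exact v.map_eq_of_sub_lt hlt

end Pool.Agent.P.MP_b8021b_nt.CH
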