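import Mathlib

/-! Self dual lattices over local rings and their intersection. -/

namespace Pool.Agent.P.MP_b8021b_nt.CH

open IsDedekindDomain

set_option linter.unusedSectionVars false

variable {K : Type} [Field K]

/-- the list `S` spans an integral lattice with an integral dual -/
def SD {V : Type} (O : Subring K) (B : V → V → K) (S : List V) : Prop :=
  (∀ a ∈ S, ∀ b ∈ S, B a b ∈ O) ∧ ∀ y, (∀ a ∈ S, B y a ∈ O) → B y y ∈ O

/-- the polar form of the quaternary form -/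
def Bn (l1 l2 l3 q1 q2 c d : K) (x y : Fin 4 → K) : K :=
  2 * l1 * x 0 * y 0 + l2 * (x 0 * y 1 + x 1 * y 0) + 2 * l3 * x 1 * y 1 +
    q1 * (x 0 * y 2 + x 2 * y 0) + q2 * (x 1 * y 2 + x 2 * y 1) + 2 * c * x 2 * y 2 +
    2 * d * x 3 * y 3

/-- the doubled form -/
def Ps {V : Type} (t : K) (B : V → V → K) (x y : V × V) : K := B x.1 y.1 - t * B x.2 y.2

theorem SD.tr {V V' : Type} {O : Subring K} {B : V → V → K} {B' : V' → V' → K} {t : K}
    {S : List (V' × V')} (f : V' → V) (hf : Function.Surjective f)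
    (hB : ∀ x y, B (f x) (f y) = B' x y) (h : SD O (Ps t B') S) :
    SD O (Ps t B) (S.map (Prod.map f f)) := by
  have e : ∀ x y, Ps t B (Prod.map f f x) (Prod.map f f y) = Ps t B' x y := fun x y => by
    simp [Ps, hB]
  refine ⟨fun a ha b hb => ?_, fun y hy => ?_⟩
  · obtain ⟨a', ha', rfl⟩ := List.mem_map.1 ha
    obtain ⟨b', hb', rfl⟩ := List.mem_map.1 hb
    rw [e]; exact h.1 a' ha' b' hb'
  · obtain ⟨y, rfl⟩ := (hf.prodMap hf) y
    rw [e]
    exact h.2 y fun a ha => e y a ▸ hy _ (List.mem_map_of_mem ha)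

theorem of_eq {O : Subring K} {x y : K} (h : x ∈ O) (e : y = x) : y ∈ O := e ▸ h

/-- the standard vectors -/
def std (K : Type) [Field K] : List ((Fin 4 → K) × (Fin 4 → K)) :=
  [(![1, 0, 0, 0], 0), (![0, 1, 0, 0], 0), (![0, 0, 1, 0], 0), (![0, 0, 0, 1], 0),
   (0, ![1, 0, 0, 0]), (0, ![0, 1, 0, 0]), (0, ![0, 0, 1, 0]), (0, ![0, 0, 0, 1])]

section

variable [CharZero K] {O : Subring K} {l1 l2 l3 q1 q2 c d t e r s : K}

theorem uni (h2 : (2 : K)⁻¹ ∈ O) (h1 : l1 ∈ O) (h2' : l2 ∈ O) (h3 : l3 ∈ O) (h4 : q1 ∈ O)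
    (h5 : q2 ∈ O) (h6 : c ∈ O) (hd : d⁻¹ ∈ O) (d0 : d ≠ 0)
    (e : d = 4 * l1 * l3 * c + l2 * q1 * q2 - l1 * q2 ^ 2 - l3 * q1 ^ 2 - c * l2 ^ 2)
    {x y z : K} (a1 : 2 * l1 * x + l2 * y + q1 * z ∈ O) (a2 : l2 * x + 2 * l3 * y + q2 * z ∈ O)
    (a3 : q1 * x + q2 * y + 2 * c * z ∈ O) : x ∈ O ∧ y ∈ O ∧ z ∈ O := by
  generalize ha : 2 * l1 * x + l2 * y + q1 * z = a at a1
  generalize hb : l2 * x + 2 * l3 * y + q2 * z = b at a2
  generalize hc : q1 * x + q2 * y + 2 * c * z = c' at a3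
  refine ⟨of_eq (x := 2⁻¹ * d⁻¹ * ((4 * l3 * c - q2 ^ 2) * a + (q1 * q2 - 2 * l2 * c) * b +
      (l2 * q2 - 2 * l3 * q1) * c')) (by (repeat' first | assumption | apply O.add_mem | apply O.sub_mem | apply O.neg_mem | apply O.mul_mem | apply O.pow_mem | exact O.zero_mem | exact ofNat_mem _ _)) ?_,
    of_eq (x := 2⁻¹ * d⁻¹ * ((q1 * q2 - 2 * l2 * c) * a + (4 * l1 * c - q1 ^ 2) * b +
      (l2 * q1 - 2 * l1 * q2) * c')) (by (repeat' first | assumption | apply O.add_mem | apply O.sub_mem | apply O.neg_mem | apply O.mul_mem | apply O.pow_mem | exact O.zero_mem | exact ofNat_mem _ _)) ?_,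
    of_eq (x := 2⁻¹ * d⁻¹ * ((l2 * q2 - 2 * l3 * q1) * a + (l2 * q1 - 2 * l1 * q2) * b +
      (4 * l1 * l3 - l2 ^ 2) * c')) (by (repeat' first | assumption | apply O.add_mem | apply O.sub_mem | apply O.neg_mem | apply O.mul_mem | apply O.pow_mem | exact O.zero_mem | exact ofNat_mem _ _)) ?_⟩
  all_goals
    field_simp
    rw [← ha, ← hb, ← hc, e]
    ring

/-- a place of good reduction -/
theorem sd_good (h2 : (2 : K)⁻¹ ∈ O) (h1 : l1 ∈ O) (h2' : l2 ∈ O) (h3 : l3 ∈ O) (h4 : q1 ∈ O)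
    (h5 : q2 ∈ O) (h6 : c ∈ O) (hd : d⁻¹ ∈ O) (d0 : d ≠ 0) (ht : t ∈ O) (ht' : t⁻¹ ∈ O)
    (t0 : t ≠ 0)
    (e : d = 4 * l1 * l3 * c + l2 * q1 * q2 - l1 * q2 ^ 2 - l3 * q1 ^ 2 - c * l2 ^ 2) :
    SD O (Ps t (Bn l1 l2 l3 q1 q2 c d)) (std K) := by
  have hd' : d ∈ O := by rw [e]; (repeat' first | assumption | apply O.add_mem | apply O.sub_mem | apply O.neg_mem | apply O.mul_mem | apply O.pow_mem | exact O.zero_mem | exact ofNat_mem _ _)
  constructor
  · simp only [std, List.forall_mem_cons, Ps, Bn]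
    simp
    refine ⟨⟨?_, ?_, ?_⟩, ⟨?_, ?_, ?_⟩, ⟨?_, ?_, ?_⟩, ?_, ⟨?_, ?_, ?_⟩, ⟨?_, ?_, ?_⟩, ⟨?_, ?_, ?_⟩,
      ?_⟩ <;> (repeat' first | assumption | apply O.add_mem | apply O.sub_mem | apply O.neg_mem | apply O.mul_mem | apply O.pow_mem | exact O.zero_mem | exact ofNat_mem _ _)
  · rintro ⟨x, y⟩ h
    simp only [std, List.forall_mem_cons, Ps, Bn] at h ⊢
    simp at h
    obtain ⟨a0, a1, a2, a3, b0, b1, b2, b3⟩ := h
    obtain ⟨x0, x1, x2⟩ := uni h2 h1 h2' h3 h4 h5 h6 hd d0 e (x := x 0) (y := x 1) (z := x 2)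
      a0 a1 a2
    obtain ⟨y0, y1, y2⟩ := uni h2 h1 h2' h3 h4 h5 h6 hd d0 e (x := y 0) (y := y 1) (z := y 2)
      (of_eq (O.mul_mem ht' b0) (by field_simp)) (of_eq (O.mul_mem ht' b1) (by field_simp))
      (of_eq (O.mul_mem ht' b2) (by field_simp))
    have x3 : x 3 ∈ O := of_eq (O.mul_mem (O.mul_mem h2 hd) a3) (by field_simp)
    have y3 : y 3 ∈ O := of_eq (O.mul_mem (O.mul_mem (O.mul_mem h2 hd) ht') b3) (by field_simp)
    (repeat' first | assumption | apply O.add_mem | apply O.sub_mem | apply O.neg_mem | apply O.mul_mem | apply O.pow_mem | exact O.zero_mem | exact ofNat_mem _ _)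

theorem uni2 (h1 : l1 ∈ O) (h2' : l2 ∈ O) (h3 : l3 ∈ O) (he : e⁻¹ ∈ O) (e0 : e ≠ 0)
    (ee : e = l2 ^ 2 - 4 * l1 * l3) {x y : K} (a1 : 2 * l1 * x + l2 * y ∈ O)
    (a2 : l2 * x + 2 * l3 * y ∈ O) : x ∈ O ∧ y ∈ O := by
  generalize ha : 2 * l1 * x + l2 * y = a at a1
  generalize hb : l2 * x + 2 * l3 * y = b at a2
  refine ⟨of_eq (x := e⁻¹ * (l2 * b - 2 * l3 * a)) (by (repeat' first | assumption | apply O.add_mem | apply O.sub_mem | apply O.neg_mem | apply O.mul_mem | apply O.pow_mem | exact O.zero_mem | exact ofNat_mem _ _)) ?_,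
    of_eq (x := e⁻¹ * (l2 * a - 2 * l1 * b)) (by (repeat' first | assumption | apply O.add_mem | apply O.sub_mem | apply O.neg_mem | apply O.mul_mem | apply O.pow_mem | exact O.zero_mem | exact ofNat_mem _ _)) ?_⟩
  all_goals
    field_simp
    rw [← ha, ← hb, ee]
    ring

/-- a root of the discriminant -/
theorem sd_root (h2 : (2 : K)⁻¹ ∈ O) (h1 : l1 ∈ O) (h2' : l2 ∈ O) (h3 : l3 ∈ O) (hd : d ∈ O)
    (d0 : d ≠ 0) (ht : t ∈ O) (ht' : t⁻¹ ∈ O) (t0 : t ≠ 0) (he : e⁻¹ ∈ O) (e0 : e ≠ 0)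
    (ee : e = l2 ^ 2 - 4 * l1 * l3) (hr : r ∈ O) (hs : s ∈ O)
    (hn : (r ^ 2 - e * s ^ 2 - t) / d ∈ O) :
    ∃ S, SD O (Ps t (Bn l1 l2 l3 0 0 (-(d * e)) d)) S := by
  have he' : e ∈ O := by rw [ee]; (repeat' first | assumption | apply O.add_mem | apply O.sub_mem | apply O.neg_mem | apply O.mul_mem | apply O.pow_mem | exact O.zero_mem | exact ofNat_mem _ _)
  generalize hn' : (r ^ 2 - e * s ^ 2 - t) / d = n at hn
  have en : t = r ^ 2 - e * s ^ 2 - n * d := by rw [← hn']; field_simp; ring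
  refine ⟨[(![1, 0, 0, 0], 0), (![0, 1, 0, 0], 0), (![0, 0, 1, 0], 0), (![0, 0, 0, 1], 0),
   (0, ![1, 0, 0, 0]), (0, ![0, 1, 0, 0]), (![0, 0, s / d, r / d], ![0, 0, 0, 1 / d]),
   (![0, 0, r / d, e * s / d], ![0, 0, 1 / d, 0])], ?_, ?_⟩
  · simp only [List.forall_mem_cons, Ps, Bn]
    simp
    have k1 : ∀ a ∈ O, ∀ x, x = a → x ∈ O := fun a ha x e => e ▸ ha
    refine ⟨⟨?_, ?_⟩, ⟨?_, ?_⟩, ⟨?_, k1 (2 * e * s) ?_ _ ?_, k1 (2 * e * r) ?_ _ ?_⟩,
      ⟨?_, k1 (2 * r) ?_ _ ?_, k1 (2 * e * s) ?_ _ ?_⟩, ⟨?_, ?_⟩, ⟨?_, ?_⟩,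
      ⟨k1 (2 * e * s) ?_ _ ?_, k1 (2 * r) ?_ _ ?_, k1 (2 * n) ?_ _ ?_, k1 0 ?_ _ ?_⟩,
      k1 (2 * e * r) ?_ _ ?_, k1 (2 * e * s) ?_ _ ?_, k1 0 ?_ _ ?_, k1 (-(2 * e * n)) ?_ _ ?_⟩
    all_goals first
      | ((repeat' first | assumption | apply O.add_mem | apply O.sub_mem | apply O.neg_mem | apply O.mul_mem | apply O.pow_mem | exact O.zero_mem | exact ofNat_mem _ _); done)
      | (field_simp; done)
      | (rw [en]; field_simp; ring)
      | (field_simp; ring)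
  · rintro ⟨x, y⟩ h
    simp only [List.forall_mem_cons, Ps, Bn] at h ⊢
    simp at h
    obtain ⟨a0, a1, a2, a3, b0, b1, b2, b3⟩ := h
    obtain ⟨x0, x1⟩ := uni2 h1 h2' h3 he e0 ee (x := x 0) (y := x 1) a0 a1
    obtain ⟨y0, y1⟩ := uni2 h1 h2' h3 he e0 ee (x := y 0) (y := y 1)
      (of_eq (O.mul_mem ht' b0) (by field_simp)) (of_eq (O.mul_mem ht' b1) (by field_simp))
    have x2 : d * x 2 ∈ O := of_eq (O.mul_mem (O.mul_mem h2 he) a2) (by field_simp)
    have x3 : d * x 3 ∈ O := of_eq (O.mul_mem h2 a3) (by field_simp)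
    have p1 : r * x 3 - e * s * x 2 - t * y 3 ∈ O := of_eq (O.mul_mem h2 b2) (by field_simp; ring)
    have p2 : s * x 3 - r * x 2 + t * y 2 ∈ O :=
      of_eq (O.mul_mem (O.mul_mem h2 he) b3) (by field_simp; ring)
    generalize ha : r * x 3 - e * s * x 2 - t * y 3 = A at p1
    generalize hb : s * x 3 - r * x 2 + t * y 2 = A' at p2
    generalize hx2 : d * x 2 = X2 at x2
    generalize hx3 : d * x 3 = X3 at x3
    refine of_eq (x := 2 * (l1 * x 0 ^ 2 + l2 * x 0 * x 1 + l3 * x 1 ^ 2) -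
      t * (2 * (l1 * y 0 ^ 2 + l2 * y 0 * y 1 + l3 * y 1 ^ 2)) +
      2 * t⁻¹ * (-n * (X3 ^ 2 - e * X2 ^ 2) + 2 * A * (r * X3 - e * s * X2) - d * A ^ 2 +
        2 * e * A' * (r * X2 - s * X3) + e * d * A' ^ 2)) (by (repeat' first | assumption | apply O.add_mem | apply O.sub_mem | apply O.neg_mem | apply O.mul_mem | apply O.pow_mem | exact O.zero_mem | exact ofNat_mem _ _)) ?_
    rw [← ha, ← hb, ← hx2, ← hx3, ← hn']
    field_simp
    ring

/-- the place zero -/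
theorem sd_zero (h2 : (2 : K)⁻¹ ∈ O) (h1 : l1 ∈ O) (h2' : l2 ∈ O) (hl : l2⁻¹ ∈ O) (l0 : l2 ≠ 0)
    (h3 : l3 / t ∈ O) (hd : d ∈ O) (hd' : d⁻¹ ∈ O) (d0 : d ≠ 0) (ht : t ∈ O) (t0 : t ≠ 0)
    (he : e⁻¹ ∈ O) (e0 : e ≠ 0) (ee : e = l2 ^ 2 - 4 * l1 * l3) :
    ∃ S, SD O (Ps t (Bn l1 l2 l3 0 0 (-(d * e)) d)) S := by
  generalize hn' : l3 / t = n at h3
  have en : l3 = n * t := by rw [← hn']; field_simp
  have h3' : l3 ∈ O := by rw [en]; (repeat' first | assumption | apply O.add_mem | apply O.sub_mem | apply O.neg_mem | apply O.mul_mem | apply O.pow_mem | exact O.zero_mem | exact ofNat_mem _ _)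
  have he' : e ∈ O := by rw [ee]; (repeat' first | assumption | apply O.add_mem | apply O.sub_mem | apply O.neg_mem | apply O.mul_mem | apply O.pow_mem | exact O.zero_mem | exact ofNat_mem _ _)
  refine ⟨[(![1, 0, 0, 0], 0), (![0, 1, 0, 0], 0), (![0, 0, 1, 0], 0), (![0, 0, 0, 1], 0),
   (0, ![1, 0, 0, 0]), (0, ![0, 0, 1, 0]), (0, ![0, 1 / t, 0, 0]),
   (0, ![0, 0, 1 / t, l2 / t])], ?_, ?_⟩
  · simp only [List.forall_mem_cons, Ps, Bn]
    simp
    have k1 : ∀ a ∈ O, ∀ x, x = a → x ∈ O := fun a ha x e => e ▸ ha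
    refine ⟨⟨?_, ?_⟩, ⟨?_, ?_⟩, ?_, ?_, ⟨?_, k1 l2 ?_ _ ?_⟩, ⟨?_, k1 (2 * d * e) ?_ _ ?_⟩,
      ⟨k1 l2 ?_ _ ?_, k1 (2 * n) ?_ _ ?_⟩, k1 (2 * d * e) ?_ _ ?_, k1 (8 * d * l1 * n) ?_ _ ?_⟩
    all_goals first
      | ((repeat' first | assumption | apply O.add_mem | apply O.sub_mem | apply O.neg_mem | apply O.mul_mem | apply O.pow_mem | exact O.zero_mem | exact ofNat_mem _ _); done)
      | (field_simp; done)
      | (rw [en]; field_simp)
      | (rw [ee, en]; field_simp; ring)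
  · rintro ⟨x, y⟩ h
    simp only [List.forall_mem_cons, Ps, Bn] at h ⊢
    simp at h
    obtain ⟨a0, a1, a2, a3, b0, b1, b2, b3⟩ := h
    obtain ⟨x0, x1⟩ := uni2 h1 h2' h3' he e0 ee (x := x 0) (y := x 1) a0 a1
    have x2 : x 2 ∈ O := of_eq (O.mul_mem (O.mul_mem (O.mul_mem h2 he) hd') a2) (by field_simp)
    have x3 : x 3 ∈ O := of_eq (O.mul_mem (O.mul_mem h2 hd') a3) (by field_simp)
    have p1 : l2 * y 0 + 2 * l3 * y 1 ∈ O := of_eq b2 (by field_simp)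
    obtain ⟨-, y1⟩ := uni2 h1 h2' h3' he e0 ee (x := t * y 0) (y := t * y 1)
      (of_eq b0 (by ring)) (of_eq (O.mul_mem ht p1) (by ring))
    have y0 : y 0 ∈ O := of_eq (x := l2⁻¹ * ((l2 * y 0 + 2 * l3 * y 1) - 2 * n * (t * y 1)))
      (O.mul_mem hl (O.sub_mem p1 (by (repeat' first | assumption | apply O.add_mem | apply O.sub_mem | apply O.neg_mem | apply O.mul_mem | apply O.pow_mem | exact O.zero_mem | exact ofNat_mem _ _)))) (by rw [en]; field_simp; ring)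
    have y2 : t * y 2 ∈ O := of_eq (O.mul_mem (O.mul_mem (O.mul_mem h2 he) hd') b1) (by field_simp)
    have p2 : l2 * y 3 - e * y 2 ∈ O :=
      of_eq (O.mul_mem (O.mul_mem h2 hd') b3) (by field_simp; ring)
    generalize ha : l2 * y 3 - e * y 2 = A at p2
    generalize hy1 : t * y 1 = Y1 at y1
    generalize hy2 : t * y 2 = Y2 at y2
    generalize hi : l2⁻¹ = i at hl
    refine of_eq (x := 2 * (l1 * x 0 ^ 2 + l2 * x 0 * x 1 + l3 * x 1 ^ 2 - d * e * x 2 ^ 2 +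
      d * x 3 ^ 2) - 2 * (t * l1 * y 0 ^ 2 + l2 * y 0 * Y1 + n * Y1 ^ 2 +
        d * i ^ 2 * (t * A ^ 2 + 2 * A * e * Y2 - 4 * e * l1 * n * Y2 ^ 2))) (by (repeat' first | assumption | apply O.add_mem | apply O.sub_mem | apply O.neg_mem | apply O.mul_mem | apply O.pow_mem | exact O.zero_mem | exact ofNat_mem _ _)) ?_
    rw [← ha, ← hy1, ← hy2, ← hi, ← hn']
    field_simp
    rw [ee]
    ring

end

/-- the intersection of the local lattices -/
theorem glue {A V : Type} [CommRing A] [IsDomain A] [IsPrincipalIdealRing A] [Algebra A K]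
    [IsFractionRing A K] [AddCommGroup V] [Module K V] (B : V →ₗ[K] V →ₗ[K] K)
    (hs : ∀ x y, B x y = B y x) (h2 : IsUnit (2 : A)) (E : List V) (D : A) (hD : D ≠ 0)
    (h : ∀ p : HeightOneSpectrum A, ∃ S : List V,
      SD (p.valuation K).integer (fun x y => B x y) S ∧ (D ∉ p.asIdeal → S = E)) :
    ∃ M : Submodule (algebraMap A K).range V,
      ∀ x, x ∈ M ↔ ∀ z ∈ M, B x z ∈ (algebraMap A K).range := by
  classical
  choose S hS hE using h
  have hA : ∀ (p : HeightOneSpectrum A) (a : A), algebraMap A K a ∈ (p.valuation K).integer :=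
    fun p a => p.valuation_le_one a
  have hu : ∀ (p : HeightOneSpectrum A) (a : A), a ∉ p.asIdeal →
      (algebraMap A K a)⁻¹ ∈ (p.valuation K).integer := fun p a ha => by
    change p.valuation K _ ≤ 1
    rw [map_inv₀, (p.valuation_eq_one_iff_notMem (K := K)).2 ha, inv_one]
  have h20 : (2 : K) ≠ 0 := by
    simpa [map_ofNat] using (h2.map (algebraMap A K)).ne_zero
  have h2' : ∀ p : HeightOneSpectrum A, (2 : K)⁻¹ ∈ (p.valuation K).integer := fun p => by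
    simpa [map_ofNat] using hu p 2 fun e => p.isPrime.ne_top (p.asIdeal.eq_top_of_isUnit_mem e h2)
  let N : HeightOneSpectrum A → V → Prop := fun p y =>
    ∀ a ∈ S p, B y a ∈ (p.valuation K).integer
  have Nadd : ∀ p y z, N p y → N p z → N p (y + z) := fun p y z hy hz a ha => by
    rw [map_add, LinearMap.add_apply]
    exact add_mem (hy a ha) (hz a ha)
  have Nsm : ∀ p (c : K) y, c ∈ (p.valuation K).integer → N p y → N p (c • y) :=
    fun p c y hc hy a ha => by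
      rw [map_smul, LinearMap.smul_apply, smul_eq_mul]
      exact mul_mem hc (hy a ha)
  have Nint : ∀ p y z, N p y → N p z → B y z ∈ (p.valuation K).integer := fun p y z hy hz => by
    refine of_eq (mul_mem (h2' p) (sub_mem (sub_mem ((hS p).2 _ (Nadd p y z hy hz))
      ((hS p).2 _ hy)) ((hS p).2 _ hz))) ?_
    simp only [map_add, LinearMap.add_apply, hs z y]
    field_simp
    ring
  have hfin : {p : HeightOneSpectrum A | D ∈ p.asIdeal}.Finite := by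
    simpa [Ideal.dvd_span_singleton] using
      Ideal.finite_factors (I := Ideal.span {D}) (by simpa using hD)
  have den : ∀ x, ∃ s : A, s ≠ 0 ∧ ∀ p, N p (algebraMap A K s • x) := fun x => by
    obtain ⟨s, hs'⟩ := IsLocalization.exist_integer_multiples (nonZeroDivisors A)
      (E.toFinset ∪ hfin.toFinset.biUnion fun p => (S p).toFinset) fun a => B x a
    refine ⟨s, nonZeroDivisors.ne_zero s.2, fun p a ha => ?_⟩
    obtain ⟨b, hb⟩ := hs' a (by
      by_cases hp : D ∈ p.asIdeal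
      · exact Finset.mem_union_right _ (Finset.mem_biUnion.2
          ⟨p, hfin.mem_toFinset.2 hp, List.mem_toFinset.2 ha⟩)
      · exact Finset.mem_union_left _ (List.mem_toFinset.2 (hE p hp ▸ ha)))
    rw [map_smul, LinearMap.smul_apply, smul_eq_mul, ← Algebra.smul_def, ← hb]
    exact hA p b
  have loc : ∀ p x, N p x → ∃ s : A, s ∉ p.asIdeal ∧ ∀ q, N q (algebraMap A K s • x) :=
    fun p x hx => by
      obtain ⟨s, s0, hs'⟩ := den x
      obtain ⟨π, hπ⟩ := (IsPrincipalIdealRing.principal p.asIdeal).principal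
      have hπ' : ∀ a, a ∈ p.asIdeal ↔ π ∣ a := fun a => by
        rw [hπ]; exact Ideal.mem_span_singleton
      have hnu : ¬ IsUnit π := fun e =>
        p.isPrime.ne_top (p.asIdeal.eq_top_of_isUnit_mem ((hπ' π).2 dvd_rfl) e)
      obtain ⟨k, s', h1, e⟩ := WfDvdMonoid.max_power_factor' s0 hnu
      refine ⟨s', fun a => h1 ((hπ' _).1 a), fun q => ?_⟩
      by_cases hq : q = p
      · rw [hq]; exact Nsm p _ x (hA p _) hx
      · have h3 : π ∉ q.asIdeal := fun a => hq (HeightOneSpectrum.ext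
          (p.isMaximal.eq_of_le q.isPrime.ne_top (by
            rw [hπ]; exact (Ideal.span_singleton_le_iff_mem _).2 a)).symm)
        have h4 : algebraMap A K π ≠ 0 := fun a => h3 (by
          rw [(map_eq_zero_iff _ (IsFractionRing.injective A K)).1 a]; exact zero_mem _)
        have h5 := Nsm q _ _ (pow_mem (hu q π h3) k) (hs' q)
        rwa [smul_smul, e, map_mul, map_pow, inv_pow, inv_mul_cancel_left₀ (pow_ne_zero _ h4)] at h5
  refine ⟨⟨⟨⟨{y | ∀ p, N p y}, fun hy hz p => Nadd p _ _ (hy p) (hz p)⟩, fun p a _ => by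
    rw [map_zero, LinearMap.zero_apply]; exact zero_mem _⟩, fun c y hy p => ?_⟩,
    fun x => ⟨fun hx z hz => ?_, fun hx p a ha => ?_⟩⟩
  · obtain ⟨_, c, rfl⟩ := c
    exact Nsm p _ y (hA p c) (hy p)
  · exact HeightOneSpectrum.mem_integers_of_valuation_le_one K _ fun p =>
      Nint p x z (hx p) (hz p)
  · obtain ⟨s, h1, h3⟩ := loc p a fun b hb => (hS p).1 a ha b hb
    obtain ⟨b, hb⟩ := hx _ h3
    have h4 : algebraMap A K s ≠ 0 := fun a => h1 (by
      rw [(map_eq_zero_iff _ (IsFractionRing.injective A K)).1 a]; exact zero_mem _)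
    refine of_eq (mul_mem (hu p s h1) (hA p b)) ?_
    rw [hb, map_smul, smul_eq_mul, inv_mul_cancel_left₀ h4]

end Pool.Agent.P.MP_b8021b_nt.CH
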