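import Pool.Agent.P.MP_b8021b_nt.CH.St
import Pool.Agent.P.MP_b8021b_nt.CH.Her
import Pool.Agent.P.MP_b8021b_nt.CH.Loc

/-! The eight dimensional form is isotropic. -/

namespace Pool.Agent.P.MP_b8021b_nt.CH

open IsDedekindDomain Polynomial WithZero

set_option linter.unusedSectionVars false

section

variable {K : Type} [Field K] [CharZero K] {O : Subring K}

theorem cramer {a0 a1 a2 u0 u1 u2 m0 m1 m2 : K}
    (h : (a1 * u2 - a2 * u1) * m0 + (a2 * u0 - a0 * u2) * m1 + (a0 * u1 - a1 * u0) * m2 ≠ 0)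
    (y0 y1 y2 : K) : ∃ x0 x1 x2 : K, x0 * a0 + x1 * u0 + x2 * m0 = y0 ∧
      x0 * a1 + x1 * u1 + x2 * m1 = y1 ∧ x0 * a2 + x1 * u2 + x2 * m2 = y2 := by
  generalize hD : (a1 * u2 - a2 * u1) * m0 + (a2 * u0 - a0 * u2) * m1 +
    (a0 * u1 - a1 * u0) * m2 = D at h
  refine ⟨((y1 * u2 - y2 * u1) * m0 + (y2 * u0 - y0 * u2) * m1 + (y0 * u1 - y1 * u0) * m2) / D,
    ((a1 * y2 - a2 * y1) * m0 + (a2 * y0 - a0 * y2) * m1 + (a0 * y1 - a1 * y0) * m2) / D,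
    ((a1 * u2 - a2 * u1) * y0 + (a2 * u0 - a0 * u2) * y1 + (a0 * u1 - a1 * u0) * y2) / D,
    ?_, ?_, ?_⟩
  all_goals
    field_simp
    rw [← hD]
    ring

/-- splitting off a binary form -/
theorem frame {l1 l2 l3 q1 q2 c d t A b E e ρ d' : K} (a0 a1 a2 u0 u1 u2 : K)
    (hA : A = Qf l1 l2 l3 q1 q2 c a0 a1 a2) (hE : E = Qf l1 l2 l3 q1 q2 c u0 u1 u2)
    (hb : b = 2 * l1 * a0 * u0 + l2 * (a0 * u1 + a1 * u0) + 2 * l3 * a1 * u1 +
      q1 * (a0 * u2 + a2 * u0) + q2 * (a1 * u2 + a2 * u1) + 2 * c * a2 * u2)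
    (he : e = b ^ 2 - 4 * A * E) (e0 : e ≠ 0) (hd : d = dl l1 l2 l3 q1 q2 c) (h0 : ρ ≠ 0)
    (hρ : d = ρ ^ 2 * d') (h : ∃ S, SD O (Ps t (Bn A b E 0 0 (-(d' * e)) d')) S) :
    ∃ S, SD O (Ps t (Bn l1 l2 l3 q1 q2 c d)) S := by
  obtain ⟨S, hS⟩ := h
  obtain ⟨g0, hg0⟩ : ∃ g, g = 2 * l1 * a0 + l2 * a1 + q1 * a2 := ⟨_, rfl⟩
  obtain ⟨g1, hg1⟩ : ∃ g, g = l2 * a0 + 2 * l3 * a1 + q2 * a2 := ⟨_, rfl⟩
  obtain ⟨g2, hg2⟩ : ∃ g, g = q1 * a0 + q2 * a1 + 2 * c * a2 := ⟨_, rfl⟩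
  obtain ⟨k0, hk0⟩ : ∃ g, g = 2 * l1 * u0 + l2 * u1 + q1 * u2 := ⟨_, rfl⟩
  obtain ⟨k1, hk1⟩ : ∃ g, g = l2 * u0 + 2 * l3 * u1 + q2 * u2 := ⟨_, rfl⟩
  obtain ⟨k2, hk2⟩ : ∃ g, g = q1 * u0 + q2 * u1 + 2 * c * u2 := ⟨_, rfl⟩
  obtain ⟨m0, hm0⟩ : ∃ g, g = g1 * k2 - g2 * k1 := ⟨_, rfl⟩
  obtain ⟨m1, hm1⟩ : ∃ g, g = g2 * k0 - g0 * k2 := ⟨_, rfl⟩
  obtain ⟨m2, hm2⟩ : ∃ g, g = g0 * k1 - g1 * k0 := ⟨_, rfl⟩
  have e1 : (a1 * u2 - a2 * u1) * m0 + (a2 * u0 - a0 * u2) * m1 + (a0 * u1 - a1 * u0) * m2 =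
      -e := by
    rw [he, hb, hA, hE, hm0, hm1, hm2, hg0, hg1, hg2, hk0, hk1, hk2, Qf, Qf]; ring
  have e2 : g0 * m0 + g1 * m1 + g2 * m2 = 0 := by rw [hm0, hm1, hm2]; ring
  have e3 : k0 * m0 + k1 * m1 + k2 * m2 = 0 := by rw [hm0, hm1, hm2]; ring
  have e4 : Qf l1 l2 l3 q1 q2 c m0 m1 m2 = -(d * e) := by
    rw [← neg_neg e, ← e1, hd, Qf, dl, hm0, hm1, hm2, hg0, hg1, hg2, hk0, hk1, hk2]; ring
  refine ⟨_, hS.tr (fun x : Fin 4 → K => ![x 0 * a0 + x 1 * u0 + x 2 / ρ * m0,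
    x 0 * a1 + x 1 * u1 + x 2 / ρ * m1, x 0 * a2 + x 1 * u2 + x 2 / ρ * m2, x 3 / ρ])
    (fun y => ?_) fun x y => ?_⟩
  · obtain ⟨x0, x1, x2, h1, h2, h3⟩ := cramer (e1 ▸ neg_ne_zero.2 e0) (y 0) (y 1) (y 2)
    refine ⟨![x0, x1, x2 * ρ, y 3 * ρ], ?_⟩
    funext i
    fin_cases i <;> simp [h0, h1, h2, h3]
  · rw [hg0, hg1, hg2] at e2
    rw [hk0, hk1, hk2] at e3
    rw [Qf, hρ] at e4
    obtain ⟨x2, hx2⟩ : ∃ z, x 2 = z * ρ := ⟨x 2 / ρ, by field_simp⟩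
    obtain ⟨y2, hy2⟩ : ∃ z, y 2 = z * ρ := ⟨y 2 / ρ, by field_simp⟩
    obtain ⟨x3, hx3⟩ : ∃ z, x 3 = z * ρ := ⟨x 3 / ρ, by field_simp⟩
    obtain ⟨y3, hy3⟩ : ∃ z, y 3 = z * ρ := ⟨y 3 / ρ, by field_simp⟩
    simp only [Bn, Matrix.cons_val, hx2, hy2, hx3, hy3, mul_div_cancel_right₀ _ h0]
    rw [hA, hE, hb, hρ, Qf, Qf]
    linear_combination (x 0 * y2 + x2 * y 0) * e2 + (x 1 * y2 + x2 * y 1) * e3 + 2 * x2 * y2 * e4

/-- the doubled form as a bilinear map -/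
def Bl (l1 l2 l3 q1 q2 c d t : K) :
    (Fin 4 → K) × (Fin 4 → K) →ₗ[K] (Fin 4 → K) × (Fin 4 → K) →ₗ[K] K :=
  LinearMap.mk₂ K (Ps t (Bn l1 l2 l3 q1 q2 c d))
    (fun x y z => by simp only [Ps, Bn, Prod.fst_add, Prod.snd_add, Pi.add_apply]; ring)
    (fun a x y => by
      simp only [Ps, Bn, Prod.smul_fst, Prod.smul_snd, Pi.smul_apply, smul_eq_mul]; ring)
    (fun x y z => by simp only [Ps, Bn, Prod.fst_add, Prod.snd_add, Pi.add_apply]; ring)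
    (fun a x y => by
      simp only [Ps, Bn, Prod.smul_fst, Prod.smul_snd, Pi.smul_apply, smul_eq_mul]; ring)

end

variable {L : Type} [Field L] [CharZero L]

theorem iso_pol {l1 l2 l3 q1 q2 c y1 y2 z : L} (hd : dl l1 l2 l3 q1 q2 c ≠ 0)
    (h : y1 ≠ 0 ∨ y2 ≠ 0 ∨ z ≠ 0) : ∃ a0 a1 a2 : L,
      2 * l1 * a0 * y1 + l2 * (a0 * y2 + a1 * y1) + 2 * l3 * a1 * y2 +
        q1 * (a0 * z + a2 * y1) + q2 * (a1 * z + a2 * y2) + 2 * c * a2 * z ≠ 0 := by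
  by_contra hc
  push Not at hc
  have h0 := hc 1 0 0
  have h1 := hc 0 1 0
  have h2 := hc 0 0 1
  have h2' : (2 : L) * dl l1 l2 l3 q1 q2 c ≠ 0 := mul_ne_zero two_ne_zero hd
  rcases h with h | h | h <;> refine h (mul_left_cancel₀ h2' ?_) <;> rw [dl]
  · linear_combination (4 * l3 * c - q2 ^ 2) * h0 + (q1 * q2 - 2 * l2 * c) * h1 +
      (l2 * q2 - 2 * l3 * q1) * h2
  · linear_combination (q1 * q2 - 2 * l2 * c) * h0 + (4 * l1 * c - q1 ^ 2) * h1 +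
      (l2 * q1 - 2 * l1 * q2) * h2
  · linear_combination (l2 * q2 - 2 * l3 * q1) * h0 + (l2 * q1 - 2 * l1 * q2) * h1 +
      (4 * l1 * l3 - l2 ^ 2) * h2

theorem har : S_Har := by
  classical
  rintro L _ _ l1 l2 l3 q1 q2 c h0 ⟨y1, y2, z, hy, hq⟩ hr
  by_contra hc
  push Not at hc
  let K := RatFunc L
  let ι : L[X] →+* K := algebraMap L[X] K
  have hι : Function.Injective ι := IsFractionRing.injective _ _
  have hι0 : ∀ {f : L[X]}, f ≠ 0 → ι f ≠ 0 := fun h => (map_ne_zero_iff ι hι).2 h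
  obtain ⟨δ, hδ⟩ : ∃ δ, δ = dl l1 l2 l3 q1 q2 c := ⟨_, rfl⟩
  rw [← hδ] at h0 hr
  have δ0 : δ ≠ 0 := fun e => h0 (by rw [e, eval_zero])
  have hd : ι δ = dl (ι l1) (ι l2) (ι l3) (ι q1) (ι q2) (ι c) := by
    simp only [hδ, dl, map_add, map_sub, map_mul, map_pow, map_ofNat]
  let B := Bl (ι l1) (ι l2) (ι l3) (ι q1) (ι q2) (ι c) (ι δ) (ι X)
  have hs : ∀ x y, B x y = B y x := fun x y => by
    simp only [B, Bl, LinearMap.mk₂_apply, Ps, Bn]; ring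
  have h2 : IsUnit (2 : L[X]) := isUnit_C.2 (two_ne_zero (α := L)).isUnit
  let v := RatFunc.inftyValuation L
  have hv : ∀ {f : L[X]}, f ≠ 0 → v (ι f) = exp (f.natDegree : ℤ) := fun h =>
    RatFunc.inftyValuation.polynomial L h
  have hEu : Eu v ι.range B := by
    refine ⟨?_, fun x => ?_, ?_, hs, fun x hx => ?_⟩
    · rintro _ ⟨f, rfl⟩ hf
      rw [hv fun e => hf (by rw [e, map_zero]), ← exp_zero]
      exact exp_le_exp.2 (by omega)
    · refine ⟨_, ⟨x.num /ₘ x.denom, rfl⟩, ?_⟩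
      have e : x - ι (x.num /ₘ x.denom) = ι (x.num %ₘ x.denom) / ι x.denom := by
        have h1 := congrArg ι (modByMonic_add_div x.num x.denom)
        have h3 : x * ι x.denom = ι x.num := by
          nth_rw 1 [← x.num_div_denom]
          exact div_mul_cancel₀ _ (hι0 x.denom_ne_zero)
        rw [eq_div_iff (hι0 x.denom_ne_zero), sub_mul, h3, ← h1, map_add, map_mul]
        ring
      rw [e]
      by_cases h1 : x.num %ₘ x.denom = 0
      · simp [h1]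
      · rw [map_div₀, hv h1, hv x.denom_ne_zero, ← exp_sub, ← exp_zero]
        have := natDegree_lt_natDegree h1 (degree_modByMonic_lt x.num x.monic_denom)
        exact exp_lt_exp.2 (by omega)
    · rintro _ ⟨f, rfl⟩ hf
      by_cases f0 : f = 0
      · simp [f0]
      rw [hv f0, ← exp_zero, exp_le_exp] at hf
      rw [eq_C_of_natDegree_eq_zero (p := f) (by omega)]
      exact ⟨C (f.coeff 0)⁻¹, map_inv₀ (ι.comp C) _⟩
    · obtain ⟨s, hs'⟩ := IsLocalization.exist_integer_multiples_of_finite (nonZeroDivisors L[X])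
        (fun i : Fin 4 ⊕ Fin 4 => Sum.elim x.1 x.2 i)
      choose w hw using hs'
      have s0 : ι s ≠ 0 := hι0 (nonZeroDivisors.ne_zero s.2)
      have w1 : ∀ i, ι (w (.inl i)) = ι s * x.1 i := fun i => by
        simpa [Algebra.smul_def] using hw (.inl i)
      have w2 : ∀ i, ι (w (.inr i)) = ι s * x.2 i := fun i => by
        simpa [Algebra.smul_def] using hw (.inr i)
      by_contra x0
      refine hc (fun i => w (.inl i)) (fun i => w (.inr i)) ?_ (hι ?_)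
      · by_contra h1
        push Not at h1
        refine x0 (Prod.ext (funext fun i => mul_left_cancel₀ s0 ?_)
          (funext fun i => mul_left_cancel₀ s0 ?_))
        · rw [← w1, congrFun h1.1 i]; simp
        · rw [← w2, congrFun h1.2 i]; simp
      · simp only [B, Bl, LinearMap.mk₂_apply, Ps, Bn] at hx
        simp only [Nf, Qf, ← hδ, map_add, map_mul, map_pow, w1, w2]
        linear_combination ι s ^ 2 / 2 * hx
  obtain ⟨M, hM⟩ := glue B hs h2 (std K) (X * δ) (mul_ne_zero X_ne_zero δ0) fun p => by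
    obtain ⟨π, hπ⟩ := (IsPrincipalIdealRing.principal p.asIdeal).principal
    have hπ' : ∀ a, a ∈ p.asIdeal ↔ π ∣ a := fun a => by
      rw [hπ]; exact Ideal.mem_span_singleton
    have π0 : π ≠ 0 := fun e => p.ne_bot (by rw [hπ, e]; simp)
    have hp : Prime π := (Ideal.span_singleton_prime π0).1 (by
      have := p.isPrime
      rwa [hπ] at this)
    have hA : ∀ a, ι a ∈ (p.valuation K).integer := fun a => p.valuation_le_one a
    have hu : ∀ a, ¬ π ∣ a → (ι a)⁻¹ ∈ (p.valuation K).integer := fun a ha => by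
      change p.valuation K _ ≤ 1
      rw [map_inv₀, (p.valuation_eq_one_iff_notMem (K := K)).2 fun e => ha ((hπ' a).1 e), inv_one]
    have hn : ∀ a, ¬ π ∣ a → ι a ≠ 0 := fun a ha => hι0 fun e => ha (e ▸ dvd_zero π)
    have h2' : (2 : K)⁻¹ ∈ (p.valuation K).integer := by
      simpa [map_ofNat] using hu 2 fun e => hp.not_isUnit (isUnit_of_dvd_unit e h2)
    change ∃ S, SD _ (Ps (ι X) (Bn (ι l1) (ι l2) (ι l3) (ι q1) (ι q2) (ι c) (ι δ))) S ∧ _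
    by_cases hX : π ∣ X
    · have hz : ∀ f : L[X], f.eval 0 ≠ 0 → ¬ π ∣ f := fun f hf e => hf (by
        have := ((hp.irreducible.associated_of_dvd irreducible_X hX).symm.dvd.trans e)
        rwa [X_dvd_iff, coeff_zero_eq_eval_zero] at this)
      obtain ⟨a0, a1, a2, ha⟩ := iso_pol (l1 := l1.eval 0) (l2 := l2.eval 0) (l3 := l3.eval 0)
        (q1 := q1.eval 0) (q2 := q2.eval 0) (c := c.eval 0) (by simpa [hδ, dl] using h0) hy
      obtain ⟨b, hb⟩ : ∃ b, b = 2 * l1 * C a0 * C y1 + l2 * (C a0 * C y2 + C a1 * C y1) +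
        2 * l3 * C a1 * C y2 + q1 * (C a0 * C z + C a2 * C y1) + q2 * (C a1 * C z + C a2 * C y2) +
        2 * c * C a2 * C z := ⟨_, rfl⟩
      obtain ⟨A, hA'⟩ : ∃ A, A = Qf l1 l2 l3 q1 q2 c (C a0) (C a1) (C a2) := ⟨_, rfl⟩
      obtain ⟨E, hE⟩ : ∃ A, A = Qf l1 l2 l3 q1 q2 c (C y1) (C y2) (C z) := ⟨_, rfl⟩
      have b0 : b.eval 0 ≠ 0 := by simpa [hb] using ha
      have E0 : E.eval 0 = 0 := by simpa [hE, Qf] using hq
      have e0 : (b ^ 2 - 4 * A * E).eval 0 ≠ 0 := by simpa [E0] using b0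
      obtain ⟨n, hn'⟩ : X ∣ E := by rwa [X_dvd_iff, coeff_zero_eq_eval_zero]
      have ee : ι (b ^ 2 - 4 * A * E) = ι b ^ 2 - 4 * ι A * ι E := by
        simp only [map_sub, map_mul, map_pow, map_ofNat]
      obtain ⟨S, hS⟩ := frame (O := (p.valuation K).integer) (t := ι X) (ι (C a0)) (ι (C a1))
        (ι (C a2)) (ι (C y1)) (ι (C y2)) (ι (C z)) (A := ι A) (E := ι E) (b := ι b)
        (by simp only [hA', Qf, map_add, map_mul, map_pow])
        (by simp only [hE, Qf, map_add, map_mul, map_pow])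
        (by simp only [hb, map_add, map_mul, map_ofNat]) ee (hn _ (hz _ e0)) hd one_ne_zero
        (d' := ι δ) (by simp) (sd_zero h2' (hA _) (hA _) (hu _ (hz _ b0)) (hn _ (hz _ b0))
          (by rw [hn', map_mul, mul_div_cancel_left₀ _ (hι0 X_ne_zero)]; exact hA _) (hA _)
          (hu _ (hz _ h0)) (hι0 δ0) (hA _) (hι0 X_ne_zero) (hu _ (hz _ e0)) (hn _ (hz _ e0)) ee)
      exact ⟨S, hS, fun e => absurd ((hπ' _).2 (hX.mul_right _)) e⟩
    by_cases hπδ : π ∣ δ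
    · obtain ⟨e, he, he', r, s, n, hn'⟩ := hr π hp.irreducible hπδ
      obtain ⟨k, δ', h1, h3⟩ := WfDvdMonoid.max_power_factor' δ0 hp.not_isUnit
      have key : ∀ A b E : L[X], e = b ^ 2 - 4 * A * E → ∃ ρ d' : K, ρ ≠ 0 ∧ ι δ = ρ ^ 2 * d' ∧
          ∃ S, SD (p.valuation K).integer
            (Ps (ι X) (Bn (ι A) (ι b) (ι E) 0 0 (-(d' * ι e)) d')) S := fun A b E ee => by
        have ee' : ι e = ι b ^ 2 - 4 * ι A * ι E := by
          simp only [ee, map_sub, map_mul, map_pow, map_ofNat]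
        have h4 : ι r ^ 2 - ι e * ι s ^ 2 - ι X = ι π * ι n := by
          simpa only [map_sub, map_mul, map_pow] using congrArg ι hn'
        obtain ⟨j, rfl | rfl⟩ := Nat.even_or_odd' k
        · refine ⟨ι π ^ j, ι δ', pow_ne_zero _ (hι0 π0), by rw [h3, map_mul, map_pow]; ring,
            sd_root h2' (hA _) (hA _) (hA _) (hA _) (hn _ h1) (hA _) (hu _ hX) (hι0 X_ne_zero)
              (hu _ he') (hn _ he') ee' (hA r) (hA s) ?_⟩
          rw [h4, div_eq_mul_inv]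
          exact mul_mem (mul_mem (hA _) (hA _)) (hu _ h1)
        · refine ⟨ι π ^ j, ι π * ι δ', pow_ne_zero _ (hι0 π0), by rw [h3, map_mul, map_pow]; ring,
            sd_root h2' (hA _) (hA _) (hA _) (mul_mem (hA _) (hA _))
              (mul_ne_zero (hι0 π0) (hn _ h1)) (hA _) (hu _ hX) (hι0 X_ne_zero)
              (hu _ he') (hn _ he') ee' (hA r) (hA s) ?_⟩
          rw [h4, mul_div_mul_left _ _ (hι0 π0), div_eq_mul_inv]
          exact mul_mem (hA _) (hu _ h1)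
      have : ∃ S, SD (p.valuation K).integer
          (Ps (ι X) (Bn (ι l1) (ι l2) (ι l3) (ι q1) (ι q2) (ι c) (ι δ))) S := by
        rcases he with he | he | he
        · obtain ⟨ρ, d', a1, a2, a3⟩ := key _ _ _ he
          exact frame 1 0 0 0 1 0 (by simp [Qf]) (by simp [Qf]) (by simp)
            (by simp only [he, map_sub, map_mul, map_pow, map_ofNat]) (hn _ he') hd a1 a2 a3
        · obtain ⟨ρ, d', a1, a2, a3⟩ := key _ _ _ he
          exact frame 1 0 0 0 0 1 (by simp [Qf]) (by simp [Qf]) (by simp)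
            (by simp only [he, map_sub, map_mul, map_pow, map_ofNat]) (hn _ he') hd a1 a2 a3
        · obtain ⟨ρ, d', a1, a2, a3⟩ := key _ _ _ he
          exact frame 0 1 0 0 0 1 (by simp [Qf]) (by simp [Qf]) (by simp)
            (by simp only [Set.mem_singleton_iff.1 he, map_sub, map_mul, map_pow, map_ofNat])
            (hn _ he') hd a1 a2 a3
      obtain ⟨S, hS⟩ := this
      exact ⟨S, hS, fun e => absurd ((hπ' _).2 (hπδ.mul_left _)) e⟩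
    · exact ⟨_, sd_good h2' (hA _) (hA _) (hA _) (hA _) (hA _) (hA _) (hu _ hπδ) (hι0 δ0) (hA _)
        (hu _ hX) (hι0 X_ne_zero) hd, fun _ => rfl⟩
  obtain ⟨g, hg⟩ := even_deg hEu M hM (x := (![0, 0, 0, 1], 0)) (by simp)
  obtain ⟨g', hg'⟩ := even_deg hEu M hM (x := (0, ![0, 0, 0, 1])) (by simp)
  have e1 : B (0, ![0, 0, 0, 1]) (0, ![0, 0, 0, 1]) =
      -(ι X * B (![0, 0, 0, 1], 0) (![0, 0, 0, 1], 0)) := by
    simp [B, Bl, Ps, Bn]
  have e2 : v (B (![0, 0, 0, 1], 0) (![0, 0, 0, 1], 0)) ≠ 0 :=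
    (Valuation.ne_zero_iff v).2 fun e => by simpa using hEu.an _ e
  rw [e1, Valuation.map_neg, map_mul, hg, hv X_ne_zero] at hg'
  rw [hg] at e2
  have g0 : v g ≠ 0 := fun e => e2 (by simp [e])
  have g1 : v g' ≠ 0 := fun e => mul_ne_zero exp_ne_zero e2 (by rw [hg', e]; simp)
  rw [← exp_log g0, ← exp_log g1, ← exp_nsmul, ← exp_nsmul, ← exp_add, exp_inj] at hg'
  simp only [natDegree_X, nsmul_eq_mul] at hg'
  omega

end Pool.Agent.P.MP_b8021b_nt.CH
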