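import Pool.Agent.P.MP_b8021b_nt.CH.Har
import Pool.Agent.P.MP_b8021b_nt.CH.HN

/-! The global step. -/

namespace Pool.Agent.P.MP_b8021b_nt.CH

open NumberField IsDedekindDomain Polynomial

theorem OK.ne {F Γ : Type} [Field F] [LinearOrderedCommGroupWithZero Γ] {v : Valuation F Γ}
    {θ d : F} (h : OK v θ d) : d ≠ 0 := fun e => by
  obtain ⟨z, j, c, -, -, e', hu, -⟩ := h
  rw [← e', e] at hu
  simp at hu

theorem OK.of_sq {F Γ : Type} [Field F] [LinearOrderedCommGroupWithZero Γ] {v : Valuation F Γ}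
    {θ d d' m : F} (h : OK v θ d') (d0 : d ≠ 0) (e : d * d' = m ^ 2) : OK v θ d := by
  obtain ⟨z, j, c, a1, a2, e', h⟩ := h
  refine ⟨z * m / d, j, c, a1, a2, ?_, h⟩
  rw [← e', div_pow, mul_pow, ← e]
  field_simp

theorem iso : S_Iso := by
  intro L _ _ l1 l2 l3 q1 q2 c hL h0 hq hw
  refine har L l1 l2 l3 q1 q2 c h0 hq fun p hp hd => ?_
  have : Fact (Irreducible p) := ⟨hp⟩
  have : Module.Finite L (AdjoinRoot p) := (AdjoinRoot.powerBasis hp.ne_zero).finite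
  have : NumberField (AdjoinRoot p) := NumberField.of_module_finite L _
  have hz : ∀ f : L[X], aeval (AdjoinRoot.root p) f = 0 ↔ p ∣ f := fun f => by
    rw [AdjoinRoot.aeval_eq, AdjoinRoot.mk_eq_zero]
  have hδ := (hz _).2 hd
  have hw' := hw _ _ hδ
  obtain ⟨w₀, -⟩ := BS.CF.exists_dv (AdjoinRoot p) le_rfl
  obtain ⟨e, he, h1⟩ := hw' w₀
  have hF : IQc (AdjoinRoot p) := by
    obtain ⟨D, hD, z, hz⟩ := hL
    exact ⟨D, hD, algebraMap L _ z, by rw [← map_pow, hz, map_intCast]⟩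
  have θ0 : AdjoinRoot.root p ≠ 0 := fun e => h0 (by
    rw [e, ← map_zero (algebraMap L (AdjoinRoot p)), aeval_algebraMap_apply_eq_algebraMap_eval]
      at hδ
    simpa using hδ)
  obtain ⟨r, s, h⟩ := hn _ (AdjoinRoot.root p) (aeval (AdjoinRoot.root p) e) hF θ0 fun w => by
    obtain ⟨e', he', h2⟩ := hw' w
    obtain ⟨m, n, hm⟩ : ∃ m n : L[X], e * e' = m ^ 2 + n * dl l1 l2 l3 q1 q2 c := by
      simp only [Set.mem_insert_iff, Set.mem_singleton_iff] at he he'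
      rcases he with rfl | rfl | rfl <;> rcases he' with rfl | rfl | rfl
      exacts [⟨_, 0, by rw [zero_mul, add_zero]; exact (sq _).symm⟩,
        ⟨l2 * q1 - 2 * l1 * q2, 4 * l1, by rw [dl]; ring⟩,
        ⟨l2 * q2 - 2 * l3 * q1, 4 * l3, by rw [dl]; ring⟩,
        ⟨l2 * q1 - 2 * l1 * q2, 4 * l1, by rw [dl]; ring⟩,
        ⟨_, 0, by rw [zero_mul, add_zero]; exact (sq _).symm⟩,
        ⟨q1 * q2 - 2 * l2 * c, 4 * c, by rw [dl]; ring⟩,
        ⟨l2 * q2 - 2 * l3 * q1, 4 * l3, by rw [dl]; ring⟩,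
        ⟨q1 * q2 - 2 * l2 * c, 4 * c, by rw [dl]; ring⟩,
        ⟨_, 0, by rw [zero_mul, add_zero]; exact (sq _).symm⟩]
    refine h2.of_sq h1.ne (m := aeval (AdjoinRoot.root p) m) ?_
    rw [← map_mul, hm, map_add, map_mul, hδ, mul_zero, add_zero, map_pow]
  obtain ⟨r, rfl⟩ := AdjoinRoot.mk_surjective r
  obtain ⟨s, rfl⟩ := AdjoinRoot.mk_surjective s
  refine ⟨e, he, fun a => h1.ne ((hz e).2 a), r, s, (hz _).1 ?_⟩
  simp only [map_sub, map_mul, map_pow, aeval_X, AdjoinRoot.aeval_eq] at h ⊢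
  rw [← h, sub_self]

end Pool.Agent.P.MP_b8021b_nt.CH
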