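import Mathlib

/-! The conic over the rational function field: statements. -/

namespace Pool.Agent.P.MP_b8021b_nt.CH

open Polynomial NumberField IsDedekindDomain

section

variable {R : Type} [CommRing R]

/-- the ternary form with coefficients `l1 l2 l3 q1 q2 c` -/
def Qf (l1 l2 l3 q1 q2 c y1 y2 z : R) : R :=
  l1 * y1 ^ 2 + l2 * y1 * y2 + l3 * y2 ^ 2 + q1 * y1 * z + q2 * y2 * z + c * z ^ 2

/-- its discriminant -/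
def dl (l1 l2 l3 q1 q2 c : R) : R :=
  4 * l1 * l3 * c + l2 * q1 * q2 - l1 * q2 ^ 2 - l3 * q1 ^ 2 - c * l2 ^ 2

/-- the quaternary form of square discriminant -/
def Nf (l1 l2 l3 q1 q2 c : R) (x : Fin 4 → R) : R :=
  Qf l1 l2 l3 q1 q2 c (x 0) (x 1) (x 2) + dl l1 l2 l3 q1 q2 c * x 3 ^ 2

end

/-- the square root of `d` is unramified at `v`, and `θ` has even order or `v` splits -/
def OK {F Γ : Type} [Field F] [LinearOrderedCommGroupWithZero Γ] (v : Valuation F Γ) (θ d : F) :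
    Prop :=
  ∃ z j c : F, v j ≤ 1 ∧ v c ≤ 1 ∧ d * z ^ 2 = j ^ 2 - 4 * c ∧ v (j ^ 2 - 4 * c) = 1 ∧
    ((∃ y : F, v (θ * y ^ 2) = 1) ∨ ∃ r : F, v r ≤ 1 ∧ v (r ^ 2 - j * r + c) < 1)

/-- the field contains an imaginary quadratic field -/
def IQc (L : Type) [Field L] : Prop := ∃ D : ℤ, D < 0 ∧ ∃ z : L, z ^ 2 = D

/-- the norm theorem for an unramified quadratic extension -/
def S_HN : Prop :=
  ∀ (F : Type) [Field F] [NumberField F] (θ d : F), IQc F → θ ≠ 0 →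
    (∀ w : HeightOneSpectrum (𝓞 F), OK (w.valuation F) θ d) → ∃ r s : F, θ = r ^ 2 - d * s ^ 2

/-- the eight dimensional form is isotropic if its residues vanish -/
def S_Har : Prop :=
  ∀ (L : Type) [Field L] [CharZero L] (l1 l2 l3 q1 q2 c : L[X]),
    (dl l1 l2 l3 q1 q2 c).eval 0 ≠ 0 →
    (∃ y1 y2 z : L, (y1 ≠ 0 ∨ y2 ≠ 0 ∨ z ≠ 0) ∧ Qf (l1.eval 0) (l2.eval 0) (l3.eval 0)
      (q1.eval 0) (q2.eval 0) (c.eval 0) y1 y2 z = 0) →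
    (∀ p : L[X], Irreducible p → p ∣ dl l1 l2 l3 q1 q2 c →
      ∃ e ∈ ({l2 ^ 2 - 4 * l1 * l3, q1 ^ 2 - 4 * l1 * c, q2 ^ 2 - 4 * l3 * c} : Set L[X]),
        ¬ p ∣ e ∧ ∃ r s : L[X], p ∣ r ^ 2 - e * s ^ 2 - X) →
    ∃ x x' : Fin 4 → L[X], (x ≠ 0 ∨ x' ≠ 0) ∧
      Nf l1 l2 l3 q1 q2 c x = X * Nf l1 l2 l3 q1 q2 c x'

/-- the global step -/
def S_Iso : Prop :=
  ∀ (L : Type) [Field L] [NumberField L] (l1 l2 l3 q1 q2 c : L[X]), IQc L →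
    (dl l1 l2 l3 q1 q2 c).eval 0 ≠ 0 →
    (∃ y1 y2 z : L, (y1 ≠ 0 ∨ y2 ≠ 0 ∨ z ≠ 0) ∧ Qf (l1.eval 0) (l2.eval 0) (l3.eval 0)
      (q1.eval 0) (q2.eval 0) (c.eval 0) y1 y2 z = 0) →
    (∀ (F : Type) [Field F] [NumberField F] [Algebra L F] (θ : F),
      aeval θ (dl l1 l2 l3 q1 q2 c) = 0 → ∀ w : HeightOneSpectrum (𝓞 F),
        ∃ e ∈ ({l2 ^ 2 - 4 * l1 * l3, q1 ^ 2 - 4 * l1 * c, q2 ^ 2 - 4 * l3 * c} : Set L[X]),
          OK (w.valuation F) θ (aeval θ e)) →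
    ∃ x x' : Fin 4 → L[X], (x ≠ 0 ∨ x' ≠ 0) ∧
      Nf l1 l2 l3 q1 q2 c x = X * Nf l1 l2 l3 q1 q2 c x'

end Pool.Agent.P.MP_b8021b_nt.CH
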